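import Mathlib

/-!
# Wild sums: scaled determinants

`A u v = ϖ ^ w u * B u v` with `B` integral.  For a threshold `ω` the polynomial
`det (1 - X ϖ^(-ω) A)` becomes integral after multiplication by a power of `ϖ`, and its reduction
is `± X ^ (number of u with w u < ω)` times a unit times the characteristic polynomial of the part
of `B` with `w u = ω`.
-/

open Polynomial Matrix

namespace Pool.Agent.Helper9.WS

section

variable {F : Type*} [Field F] {O : ValuationSubring F} {J : Type*} [Fintype J] [DecidableEq J]
  {κ : Type*} [CommRing κ]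

/-- the scaled matrix over the polynomials -/
noncomputable def scaled (w : J → ℕ) (B : Matrix J J O) (π : O) (ω : ℕ) : Matrix J J (Polynomial O) :=
  fun u v => (if w u < ω then C (π ^ (ω - w u)) else 1) * (if u = v then 1 else 0)
    - X * (if w u < ω then C (B u v) else C (π ^ (w u - ω) * B u v))

/-- the number of `u` below the threshold -/
noncomputable def low (w : J → ℕ) (ω : ℕ) : Finset J := Finset.univ.filter fun u => w u < ω

noncomputable def expo (w : J → ℕ) (ω : ℕ) : ℕ := ∑ u ∈ low w ω, (ω - w u)

theorem map_det_scaled (w : J → ℕ) (B : Matrix J J O) (π : O) (hπ : π ≠ 0) (ω : ℕ) :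
    ((scaled w B π ω).det).map (algebraMap O F) = C ((π : F) ^ expo w ω) *
      (1 - (X : F[X]) • (Matrix.map (fun u v => (π : F) ^ w u * (B u v : F) / (π : F) ^ ω) C)).det := by
  have hπ' : (π : F) ≠ 0 := by simpa using hπ
  set d : J → F[X] := fun u => if w u < ω then C ((π : F) ^ (ω - w u)) else 1 with hd
  have h1 : C ((π : F) ^ expo w ω) = ∏ u, d u := by
    rw [expo, ← Finset.prod_pow_eq_pow_sum, map_prod, low, Finset.prod_filter]
  have h2 : ((scaled w B π ω).map (Polynomial.mapRingHom (algebraMap O F))) = Matrix.of fun u v =>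
      d u * (1 - (X : F[X]) • (Matrix.map (fun u v => (π : F) ^ w u * (B u v : F) / (π : F) ^ ω) C)) u v := by
    ext1 u v
    simp only [Matrix.map_apply, scaled, Matrix.of_apply, Matrix.sub_apply, Matrix.smul_apply,
      Matrix.one_apply, hd, smul_eq_mul]
    have e : algebraMap O F π = (π : F) := rfl
    have e2 : algebraMap O F (B u v) = (B u v : F) := rfl
    by_cases h : w u < ω
    · have h3 : (π : F) ^ ω = (π : F) ^ (ω - w u) * (π : F) ^ w u := by
        rw [← pow_add]; congr 1; omega
      have h4 : (C ((π : F) ^ (ω - w u)) : F[X]) * C ((π : F) ^ w u * (B u v : F) / (π : F) ^ ω) = C (B u v : F) := by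
        rw [← C_mul]; congr 1; rw [h3]; field_simp
      simp only [if_pos h, map_sub, map_mul, Polynomial.coe_mapRingHom, Polynomial.map_C, Polynomial.map_X,
        map_pow, e, e2]
      rw [mul_sub, ← C_pow, ← h4]
      split_ifs with h5
      · simp; ring
      · simp; ring
    · have h3 : (π : F) ^ w u = (π : F) ^ (w u - ω) * (π : F) ^ ω := by
        rw [← pow_add]; congr 1; omega
      have h4 : ((π : F) ^ w u * (B u v : F) / (π : F) ^ ω) = (π : F) ^ (w u - ω) * (B u v : F) := by
        rw [h3]; field_simp
      simp only [if_neg h, h4, one_mul]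
      split_ifs with h5
      · simp [e, e2]
      · simp [e, e2]
  have h5 : ((scaled w B π ω).det).map (algebraMap O F) =
      ((scaled w B π ω).map (Polynomial.mapRingHom (algebraMap O F))).det := by
    rw [← Polynomial.coe_mapRingHom, RingHom.map_det]; rfl
  rw [h5, h2, h1]
  exact Matrix.det_mul_column d _

/-- the block of the `u` with weight below the threshold -/
noncomputable def lowBlock (w : J → ℕ) (ω : ℕ) (B : Matrix J J κ) :
    Matrix {u // w u < ω} {u // w u < ω} κ := fun u v => B u v

/-- the block of the `u` with weight equal to the threshold -/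
noncomputable def midBlock (w : J → ℕ) (ω : ℕ) (B : Matrix J J κ) :
    Matrix {u // w u = ω} {u // w u = ω} κ := fun u v => B u v

theorem map_residue_det_scaled (w : J → ℕ) (B : Matrix J J O) (π : O)
    (hπ : IsLocalRing.residue O π = 0) (ω : ℕ)
    (hB : ∀ u v, w u = ω → w v < ω → IsLocalRing.residue O (B u v) = 0) :
    ((scaled w B π ω).det).map (IsLocalRing.residue O) =
      C (lowBlock w ω (B.map (IsLocalRing.residue O))).det * (-X) ^ (low w ω).card *
      (midBlock w ω (B.map (IsLocalRing.residue O))).charpolyRev := by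
  set κ := IsLocalRing.ResidueField O with hκ
  set ρ := IsLocalRing.residue O with hρ
  set M : Matrix J J κ[X] := (scaled w B π ω).map (Polynomial.mapRingHom ρ) with hM
  have h5 : ((scaled w B π ω).det).map ρ = M.det := by
    rw [← Polynomial.coe_mapRingHom, RingHom.map_det]; rfl
  have hlow : ∀ u v, w u < ω → M u v = -X * C (ρ (B u v)) := by
    intro u v h
    have h1 : (π ^ (ω - w u) : O) = π * π ^ (ω - w u - 1) := by
      rw [← pow_succ']; congr 1; omega
    simp only [hM, Matrix.map_apply, scaled, if_pos h, Polynomial.coe_mapRingHom, Polynomial.map_sub,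
      Polynomial.map_mul, Polynomial.map_C, Polynomial.map_X, h1, map_mul, hπ]
    simp
  have hmid : ∀ u v, w u = ω → M u v = (if u = v then 1 else 0) - X * C (ρ (B u v)) := by
    intro u v h
    have h1 : ¬ w u < ω := by omega
    simp only [hM, Matrix.map_apply, scaled, if_neg h1, Polynomial.coe_mapRingHom, Polynomial.map_sub,
      Polynomial.map_mul, Polynomial.map_C, Polynomial.map_X, h]
    split_ifs <;> simp
  have hhigh : ∀ u v, ω < w u → M u v = if u = v then 1 else 0 := by
    intro u v h
    have h1 : ¬ w u < ω := by omega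
    have h2 : (π ^ (w u - ω) : O) = π * π ^ (w u - ω - 1) := by
      rw [← pow_succ']; congr 1; omega
    simp only [hM, Matrix.map_apply, scaled, if_neg h1, Polynomial.coe_mapRingHom, Polynomial.map_sub,
      Polynomial.map_mul, Polynomial.map_C, Polynomial.map_X, h2, map_mul, hπ]
    split_ifs <;> simp
  rw [h5, M.twoBlockTriangular_det (fun u => w u ≤ ω) (by
    intro i hi j hj
    rw [hhigh i j (by simpa using hi), if_neg]
    rintro rfl
    exact hi hj)]
  have e1 : (toSquareBlockProp M fun i => ¬ w i ≤ ω).det = 1 := by
    have : (toSquareBlockProp M fun i => ¬ w i ≤ ω) = 1 := by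
      ext1 i j
      rw [toSquareBlockProp_def, Matrix.of_apply, hhigh _ _ (not_le.mp i.2), Matrix.one_apply]
      simp only [Subtype.ext_iff]
    rw [this, det_one]
  rw [e1, mul_one, (toSquareBlockProp M fun u => w u ≤ ω).twoBlockTriangular_det (fun u => w u < ω) (by
    intro i hi j hj
    have hi' : w (i : J) = ω := le_antisymm i.2 (not_lt.mp hi)
    rw [toSquareBlockProp_def, Matrix.of_apply, hmid _ _ hi', if_neg, hB _ _ hi' hj]
    · simp
    · rintro h
      rw [h] at hi'
      omega)]
  congr 1
  · -- low block
    have e2 : (toSquareBlockProp (toSquareBlockProp M fun u => w u ≤ ω) fun u => w (u : J) < ω).det =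
        ((-X : κ[X]) • (lowBlock w ω (B.map ρ)).map C).det := by
      let e : {u // w u < ω} ≃ {u : {u // w u ≤ ω} // w (u : J) < ω} :=
        { toFun := fun u => ⟨⟨u, u.2.le⟩, u.2⟩
          invFun := fun u => ⟨u, u.2⟩
          left_inv := fun _ => rfl
          right_inv := fun _ => rfl }
      rw [← Matrix.det_submatrix_equiv_self e]
      congr 1
      ext1 i j
      exact hlow (i : J) (j : J) i.2
    rw [e2, Matrix.det_smul, mul_comm]
    congr 1
    · rw [RingHom.map_det]; rfl
    · congr 1
      rw [Fintype.card_subtype]; rfl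
  · -- mid block
    rw [charpolyRev]
    let e : {u // w u = ω} ≃ {u : {u // w u ≤ ω} // ¬ w (u : J) < ω} :=
      { toFun := fun u => ⟨⟨u, u.2.le⟩, by simp [u.2]⟩
        invFun := fun u => ⟨u, le_antisymm u.1.2 (not_lt.mp u.2)⟩
        left_inv := fun _ => rfl
        right_inv := fun _ => rfl }
    rw [← Matrix.det_submatrix_equiv_self e]
    congr 1
    ext1 i j
    refine (hmid (i : J) (j : J) i.2).trans ?_
    rw [Matrix.sub_apply, Matrix.one_apply, Matrix.smul_apply]
    simp only [Subtype.ext_iff]
    rfl

end

end Pool.Agent.Helper9.WS
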