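import Mathlib

/-!
# Wild exponential sums: definitions (project WS)
-/

open MvPolynomial Finset

namespace Pool.Agent.Helper9.WS

/-- the coefficients of the Artin-Hasse exponential `exp (∑ X ^ p ^ j / p ^ j)` -/
noncomputable def ah (p : ℕ) : ℕ → ℚ
  | 0 => 1
  | n + 1 => (∑ j ∈ (range (n + 1)).filter fun j => p ^ j ≤ n + 1, ah p (n - (p ^ j - 1))) /
      ((n : ℚ) + 1)
termination_by n => n
decreasing_by omega

/-- the truncated Artin-Hasse exponential -/
noncomputable def ev (p : ℕ) {L : Type} [Field L] (M : ℕ) (x : L) : L :=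
  ∑ j ∈ range M, ((ah p j : ℚ) : L) * x ^ j

/-- a valuation ring of `L` over `p` with Teichmüller representatives -/
structure Frame (p : ℕ) (κ L : Type) [Field κ] [Field L] where
  /-- the valuation ring -/
  O : ValuationSubring L
  p_lt : O.valuation (p : L) < 1
  /-- Teichmüller representatives -/
  T : κ →*₀ L
  T_inj : Function.Injective T
  T_le : ∀ x, O.valuation (T x) ≤ 1
  approx : ∀ (r : ℕ) (t : κ), t ^ p ^ r = t → ∀ N : ℕ, ∃ n : ℕ,
    O.valuation (∑ i ∈ range r, T t ^ p ^ i - (n : L)) ≤ O.valuation (p : L) ^ N ∧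
    (n : κ) = ∑ i ∈ range r, t ^ p ^ i

/-- the valuation of a frame -/
noncomputable abbrev Frame.v {p : ℕ} {κ L : Type} [Field κ] [Field L] (Φ : Frame p κ L) :
    Valuation L Φ.O.ValueGroup := Φ.O.valuation

section

variable {p : ℕ} {κ L : Type} [Field κ] [Field L] (Φ : Frame p κ L) {n : ℕ}
  {k : Type} [Field k] [Algebra k κ]

/-- the exponential sum with multiplicative twists -/
noncomputable def wildSum (ψ : AddChar (ZMod p) L) (c : Fin n → ℕ) (K : Type) [Field K]
    [Fintype K] [Algebra k K] [Algebra (ZMod p) K] (ι : K →ₐ[k] κ) (f : MvPolynomial (Fin n) k) :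
    L :=
  ∑ x : Fin n → K, (∏ j, Φ.T (ι (x j)) ^ (c j * ((Fintype.card K - 1) / (p - 1)))) *
    ψ (Algebra.trace (ZMod p) K (aeval x f))

/-- the `i`-th splitting factor of `f` -/
noncomputable def fac (M : ℕ) (γ : L) (f : MvPolynomial (Fin n) k) (i : ℕ) :
    MvPolynomial (Fin n) L :=
  ∏ e ∈ f.support, ∑ j ∈ range M, monomial (j • e)
    (((ah p j : ℚ) : L) * (γ * Φ.T (algebraMap k κ (f.coeff e)) ^ p ^ i) ^ j)

/-- the product of the splitting factors, with the `i`-th in the variables `x ^ p ^ i` -/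
noncomputable def prd (M : ℕ) (γ : L) (f : MvPolynomial (Fin n) k) (r : ℕ) :
    MvPolynomial (Fin n) L :=
  ∏ i ∈ range r, expand (p ^ i) (fac Φ M γ f i)

end

/-- the indices: vectors bounded by `B` in the class of `-c` modulo `p - 1`, in the cone `C`, with
the zero components `Z` -/
def Idx (p : ℕ) {n : ℕ} (c : Fin n → ℕ) (C : (Fin n →₀ ℕ) → Prop) (B : ℕ) (Z : Finset (Fin n)) :
    Type :=
  {U : Fin n → Fin (B + 1) // (∀ j, (j ∈ Z ↔ (U j : ℕ) = 0) ∧ (p - 1) ∣ (U j : ℕ) + c j) ∧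
    C (Finsupp.equivFunOnFinite.symm fun j => (U j : ℕ))}

noncomputable instance {p : ℕ} {n : ℕ} (c : Fin n → ℕ) (C : (Fin n →₀ ℕ) → Prop) (B : ℕ)
    (Z : Finset (Fin n)) : Fintype (Idx p c C B Z) := by
  classical
  unfold Idx
  infer_instance

noncomputable instance {p : ℕ} {n : ℕ} (c : Fin n → ℕ) (C : (Fin n →₀ ℕ) → Prop) (B : ℕ)
    (Z : Finset (Fin n)) : DecidableEq (Idx p c C B Z) := Classical.decEq _

/-- the exponent vector of an index -/
noncomputable def Idx.vec {p : ℕ} {n : ℕ} {c : Fin n → ℕ} {C : (Fin n →₀ ℕ) → Prop} {B : ℕ}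
    {Z : Finset (Fin n)} (U : Idx p c C B Z) : Fin n →₀ ℕ :=
  Finsupp.equivFunOnFinite.symm fun j => (U.1 j : ℕ)

/-- the transfer matrix of a polynomial: the coefficients at `(p U - V) / (p - 1)` -/
noncomputable def trans {L : Type} [Field L] (p : ℕ) {n : ℕ} (c : Fin n → ℕ)
    (C : (Fin n →₀ ℕ) → Prop) (B : ℕ) (Z : Finset (Fin n)) (P : MvPolynomial (Fin n) L) :
    Matrix (Idx p c C B Z) (Idx p c C B Z) L := fun U V =>
  ∑ N ∈ P.support, if (p - 1) • N + V.vec = p • U.vec then P.coeff N else 0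

/-- `A (r - 1) * ... * A 0` -/
def mprod {J R : Type} [Fintype J] [DecidableEq J] [Semiring R] (A : ℕ → Matrix J J R) :
    ℕ → Matrix J J R
  | 0 => 1
  | r + 1 => A r * mprod A r

/-- the cyclic block matrix of `A 0, ..., A (s - 1)` -/
def cyc {I R : Type} [Zero R] (s : ℕ) (A : ℕ → Matrix I I R) : Matrix (Fin s × I) (Fin s × I) R :=
  fun x y => if ((y.1 : ℕ) + 1) % s = (x.1 : ℕ) then A y.1 x.2 y.2 else 0

/-- a weight function for the exponents `E` and the cone `C` -/
structure Weight (p : ℕ) {n : ℕ} (E : Finset (Fin n →₀ ℕ)) (C : (Fin n →₀ ℕ) → Prop) where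
  /-- the weight of the exponents is at most `l` -/
  l : ℕ
  l_pos : 0 < l
  w : (Fin n →₀ ℕ) → ℕ
  w_smul : ∀ U, w (p • U) = p * w U
  w_exp : ∀ e ∈ E, ∀ U, w (U + (p - 1) • e) ≤ w U + (p - 1) * l
  C_zero : C 0
  C_exp : ∀ e ∈ E, ∀ U, C U → C (U + e)
  C_smul : ∀ m U, 0 < m → C (m • U) → C U

section

variable {p n : ℕ} {E : Finset (Fin n →₀ ℕ)} {C : (Fin n →₀ ℕ) → Prop}

/-- `U` is reached from `V` by the exponents `e ∈ E` with multiplicities `m e`, without loss of
weight -/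
def IsTight (ω : Weight p E C) (U V : Fin n →₀ ℕ) (m : (Fin n →₀ ℕ) → ℕ) : Prop :=
  (p - 1) • (∑ e ∈ E, m e • e) + V = p • U ∧ ω.w V + (p - 1) * ω.l * ∑ e ∈ E, m e = p * ω.w U

/-- below the weight `W` the weights are pairwise different and the leading part of the transfer
matrix is diagonal -/
structure Simple (ω : Weight p E C) (c : Fin n → ℕ) (W : ℕ) (low : Finset (Fin n →₀ ℕ)) :
    Prop where
  mem_low : ∀ U, U ∈ low ↔ (∀ j, U j ≠ 0 ∧ (p - 1) ∣ U j + c j) ∧ C U ∧ ω.w U < W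
  inj : ∀ U ∈ low, ∀ V ∈ low, ω.w U = ω.w V → U = V
  tight : ∀ U ∈ low, ∃ m, IsTight ω U U m ∧ ∀ e ∈ E, m e < p
  uniq : ∀ U ∈ low, ∀ V ∈ low, ∀ m m', IsTight ω U V m → IsTight ω U U m' →
    U = V ∧ ∀ e ∈ E, m e = m' e
  bound : ∀ U (Z : Finset (Fin n)), (∀ j, (j ∈ Z ↔ U j = 0) ∧ (p - 1) ∣ U j + c j) → C U →
    W ≤ ω.w U + max 1 Z.card * ((p - 1) * ω.l)

end

/-- `f = α x ^ a + β y ^ b + ` terms of lower weight, `a`, `b` coprime, `p` congruent to 1 modulo
`a b` -/
def PlaneType {k : Type} [Field k] (p a b : ℕ) (f : MvPolynomial (Fin 2) k) : Prop :=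
  0 < a ∧ 0 < b ∧ a.Coprime b ∧ a * b ∣ p - 1 ∧ f.coeff (Finsupp.single 0 a) ≠ 0 ∧
    f.coeff (Finsupp.single 1 b) ≠ 0 ∧ ∀ e ∈ f.support, e = Finsupp.single 0 a ∨
      e = Finsupp.single 1 b ∨ b * e 0 + a * e 1 < a * b

section

variable {k : Type} [Field k]

/-- the value `F (x, t)` of a polynomial in `x` with coefficients in `k[t]` -/
noncomputable def ellVal {R : Type} [CommRing R] [Algebra k R] (F : Polynomial (Polynomial k))
    (x t : R) : R :=
  F.eval₂ (Polynomial.aeval t).toRingHom x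

/-- `g (t) + z F (x, t) + z'` in the variables `t, x, z, z'` -/
noncomputable def ell4 (F : Polynomial (Polynomial k)) (g : Polynomial k) :
    MvPolynomial (Fin 4) k :=
  Polynomial.aeval (X 0) g + X 2 * ellVal F (X 1) (X 0) + X 3

/-- `x (x - 1) (x - t)` -/
noncomputable def legF (k : Type) [Field k] : Polynomial (Polynomial k) :=
  Polynomial.X * (Polynomial.X - 1) * (Polynomial.X - Polynomial.C Polynomial.X)

/-- `x (x² + u x + t)` -/
noncomputable def torF (u : k) : Polynomial (Polynomial k) :=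
  Polynomial.X * (Polynomial.X ^ 2 + Polynomial.C (Polynomial.C u) * Polynomial.X +
    Polynomial.C Polynomial.X)

/-- `x³ + A (t) x + B (t)` -/
noncomputable def weiF (A B : Polynomial k) : Polynomial (Polynomial k) :=
  Polynomial.X ^ 3 + Polynomial.C A * Polynomial.X + Polynomial.C B

end

/-- the twist by the quadratic character in the variables `z, z'` -/
def ellc (p : ℕ) : Fin 4 → ℕ := ![0, 0, (p - 1) / 2, (p - 1) / 2]

end Pool.Agent.Helper9.WS
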