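import Pool.Agent.Helper9.WS.Defs4

/-!
# Wild sums: comparison in the middle slope (project WS)
-/

open MvPolynomial Finset

namespace Pool.Agent.Helper9.WS

section

variable {p : ℕ} {κ L : Type} [Field κ] [Field L] (Φ : Frame p κ L) {n : ℕ} {k : Type} [Field k]
  [Algebra k κ] {C : (Fin n →₀ ℕ) → Prop}

open scoped Classical in
/-- the sum over the representations without loss of weight -/
noncomputable def tightSum (M : ℕ) (f : MvPolynomial (Fin n) k) (ω : Weight p f.support C) (i : ℕ)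
    (U V : Fin n →₀ ℕ) : L :=
  ∑ m : f.support → Fin M,
    if IsTight ω U V (fun e => if h : e ∈ f.support then (m ⟨e, h⟩ : ℕ) else 0) then
      ∏ e : f.support, ((ah p (m e : ℕ) : ℚ) : L) *
        Φ.T (algebraMap k κ (f.coeff (e : Fin n →₀ ℕ))) ^ (p ^ i * (m e : ℕ))
    else 0

end

section

variable {p n : ℕ} {k : Type} [Field k] {C C' : (Fin n →₀ ℕ) → Prop}

/-- the classes of the exponents `U` with the zero components `Z` -/
def Cls (p : ℕ) (c : Fin n → ℕ) (Z : Finset (Fin n)) (U : Fin n →₀ ℕ) : Prop :=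
  ∀ j, (j ∈ Z ↔ U j = 0) ∧ (p - 1) ∣ U j + c j

/-- the parts of `f` and `f'` of weight exactly `W` agree, and `f'` has no part of lower weight -/
structure Compare {f f' : MvPolynomial (Fin n) k} (ω : Weight p f.support C)
    (ω' : Weight p f'.support C') (c : Fin n → ℕ) (W : ℕ) : Prop where
  l_eq : ω'.l = ω.l
  sub : f'.support ⊆ f.support
  coeff : ∀ e ∈ f'.support, f'.coeff e = f.coeff e
  bound' : ∀ Z U, Cls p c Z U → C' U → W ≤ ω'.w U + Z.card * ((p - 1) * ω.l)
  iff : ∀ (Z : Finset (Fin n)) (a : ℕ) U, Z.card ≤ a → Cls p c Z U →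
    ((C U ∧ ω.w U + a * ((p - 1) * ω.l) = W) ↔ (C' U ∧ ω'.w U + a * ((p - 1) * ω.l) = W))
  tight : ∀ (Z : Finset (Fin n)) (a : ℕ) U V, Z.card ≤ a → Cls p c Z U → Cls p c Z V → C U → C V →
    ω.w U + a * ((p - 1) * ω.l) = W → ω.w V + a * ((p - 1) * ω.l) = W → ∀ m,
      (IsTight ω U V m ↔ (IsTight ω' U V m ∧ ∀ e ∈ f.support, e ∉ f'.support → m e = 0))
  low : ∀ U V, Cls p c ∅ U → Cls p c ∅ V → C U → C V → ω.w U = W → ω.w V < W →
    ∀ m, ¬ IsTight ω U V m

end

end Pool.Agent.Helper9.WS
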