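import Pool.Agent.Helper9.WS.Core5

/-!
# Wild sums: the eigenvalues of small slope are simple (project WS)
-/

open MvPolynomial Finset

namespace Pool.Agent.Helper9.WS

/-- If the power sums of `β` are the exponential sums of `f`, then the number of the `β i` of
normalised slope at most `(W - 1) / (l (p - 1))` is the number of the exponents of weight less
than `W`, and they are pairwise different. -/
theorem core {p : ℕ} [Fact p.Prime] {κ L : Type} [Field κ] [CharP κ p] [Field L] [CharZero L]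
    [IsAlgClosed L] (Φ : Frame p κ L)
    (hadd : ∀ x y, Φ.v (Φ.T x + Φ.T y - Φ.T (x + y)) < 1) {n : ℕ} {k : Type} [Field k] [Fintype k]
    [Algebra k κ] {s : ℕ} (hk : Fintype.card k = p ^ s) {f : MvPolynomial (Fin n) k}
    {c : Fin n → ℕ} (hc : ∀ j, c j < p - 1) {C : (Fin n →₀ ℕ) → Prop} {ω : Weight p f.support C}
    {W : ℕ} (hW : 0 < W) {low : Finset (Fin n →₀ ℕ)} (hb : Blocks f ω c s W low)
    {ψ : AddChar (ZMod p) L} (hψ : ψ ≠ 1) {D : ℕ} (β : Fin D → L)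
    (hβ : ∀ m, 0 < m → ∃ (K : Type) (_ : Field K) (_ : Fintype K) (_ : Algebra k K)
      (_ : Algebra (ZMod p) K) (ι : K →ₐ[k] κ), Fintype.card K = Fintype.card k ^ m ∧
        ∑ i, β i ^ m = (-1) ^ n * wildSum Φ ψ c K ι f) :
    (univ.filter fun i => Φ.v (p : L) ^ (s * (W - 1)) ≤ Φ.v (β i) ^ (ω.l * (p - 1))).card =
      low.card ∧
    ∀ i j, Φ.v (p : L) ^ (s * (W - 1)) ≤ Φ.v (β i) ^ (ω.l * (p - 1)) → β i = β j → i = j := by
  classical
  have hpp : p.Prime := Fact.out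
  have hp : 1 < p := hpp.one_lt
  have hs : 0 < s := by
    rcases s.eq_zero_or_pos with h | h
    · rw [h, pow_zero] at hk
      have := Fintype.one_lt_card (α := k)
      omega
    · exact h
  -- the root of unity
  have hζ : IsPrimitiveRoot (ψ 1) p := by
    have h1 : ψ 1 ^ p = 1 := by
      rw [← AddChar.map_nsmul_eq_pow, nsmul_one, CharP.cast_eq_zero, AddChar.map_zero_eq_one]
    have h2 : ψ 1 ≠ 1 := by
      intro h
      apply hψ
      ext x
      have h3 : x = x.val • (1 : ZMod p) := by rw [nsmul_one, ZMod.natCast_zmod_val]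
      rw [h3, AddChar.map_nsmul_eq_pow, h, one_pow, AddChar.one_apply]
    have h3 := orderOf_eq_prime h1 h2
    exact (IsPrimitiveRoot.iff_orderOf).2 h3
  set N := s * (D + low.card) with hN
  set M := (p - 1) * W * N + (p - 1) * N.factorial + p + 2 with hM
  obtain ⟨γ, hγψ, hγp⟩ := exists_gamma Φ hζ (M := M) (by omega)
  have hp0 : (p : L) ≠ 0 := Nat.cast_ne_zero.2 hpp.ne_zero
  have hvp0 : Φ.v (p : L) ≠ 0 := (Φ.v.ne_zero_iff).2 hp0
  have hγ : Φ.v γ < 1 := by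
    by_contra h
    rw [not_lt] at h
    have h1 : 1 ≤ Φ.v γ ^ (p - 1) := one_le_pow₀ h
    rw [hγp] at h1
    exact absurd Φ.p_lt (not_lt.2 h1)
  have hγ0 : γ ≠ 0 := by
    rintro rfl
    rw [map_zero, zero_pow (by omega)] at hγp
    exact hvp0 hγp.symm
  have hl : 0 < ω.l * (p - 1) := Nat.mul_pos ω.l_pos (by omega)
  obtain ⟨ϖ, hϖ⟩ := IsAlgClosed.exists_pow_nat_eq γ hl
  have hϖ0 : ϖ ≠ 0 := by
    rintro rfl
    rw [zero_pow hl.ne'] at hϖ
    exact hγ0 hϖ.symm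
  have hϖ' : Φ.v ϖ ^ (ω.l * (p - 1)) = Φ.v γ := by rw [← map_pow, hϖ]
  have hϖ1 : Φ.v ϖ < 1 := by
    by_contra h
    rw [not_lt] at h
    have h1 : 1 ≤ Φ.v ϖ ^ (ω.l * (p - 1)) := one_le_pow₀ h
    rw [hϖ'] at h1
    exact absurd hγ (not_lt.2 h1)
  have hϖp : 0 < Φ.v ϖ := zero_lt_iff.2 ((Φ.v.ne_zero_iff).2 hϖ0)
  obtain ⟨B, hB₀, hB⟩ := exists_bound Φ M f (low.sup fun U => ∑ i, U i)
  have hlow : ∀ U ∈ low, ∀ i, U i ≤ B := by
    intro U hU i
    refine le_trans ?_ ((Finset.le_sup (f := fun U : Fin n →₀ ℕ => ∑ i, U i) hU).trans hB₀)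
    exact Finset.single_le_sum (f := fun i => U i) (fun _ _ => Nat.zero_le _) (Finset.mem_univ i)
  have key : ∀ j < W, (univ.filter fun i => Φ.v ϖ ^ ((p - 1) * j * s) < Φ.v (β i)).card =
      (low.filter fun U => ω.w U < j).card ∧
    (univ.filter fun i => Φ.v (β i) = Φ.v ϖ ^ ((p - 1) * j * s)).card =
      (low.filter fun U => ω.w U = j).card ∧
    ∀ i i', Φ.v (β i) = Φ.v ϖ ^ ((p - 1) * j * s) → β i = β i' → i = i' := by
    intro j hj
    obtain ⟨H, h1, h2, h3⟩ := exists_H Φ (c := c) (B := B) (M := M) hs hk hb hc hγ hγp hϖ0 hϖ hϖ1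
      (hB γ) hγψ hj (N := N) β (by omega) hβ
    exact core_slopes Φ hadd hs hb (by omega) hγ hγ0 hϖ0 hϖ hϖ1 hlow hj le_rfl β H h1 h2 h3
  obtain ⟨h1, h2⟩ := count_big β Φ.v low ω.w hW (fun U hU => ((hb.mem_low U).1 hU).2.2)
    (fun j => Φ.v ϖ ^ ((p - 1) * j * s)) (fun i j hij _ => by
      refine pow_lt_pow_right_of_lt_one₀ hϖp hϖ1 ?_
      exact Nat.mul_lt_mul_of_pos_right (Nat.mul_lt_mul_of_pos_left hij (by omega)) hs)
    (fun j hj => (key j hj).1) (fun j hj => (key j hj).2.1) (fun j hj => (key j hj).2.2)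
  have hiff : ∀ i, Φ.v ϖ ^ ((p - 1) * (W - 1) * s) ≤ Φ.v (β i) ↔
      Φ.v (p : L) ^ (s * (W - 1)) ≤ Φ.v (β i) ^ (ω.l * (p - 1)) := by
    intro i
    rw [← pow_le_pow_iff_left₀ (a := Φ.v ϖ ^ ((p - 1) * (W - 1) * s)) zero_le zero_le hl.ne',
      ← hγp, ← hϖ', ← pow_mul, ← pow_mul, ← pow_mul]
    have : (p - 1) * (W - 1) * s * (ω.l * (p - 1)) =
        ω.l * (p - 1) * ((p - 1) * (s * (W - 1))) := by
      ring
    rw [this]
  simp only [hiff] at h1 h2
  exact ⟨h1, h2⟩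

end Pool.Agent.Helper9.WS
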