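import Pool.Agent.Helper9.WS.Core7

/-!
# Wild sums: the eigenvalues of the middle slope (project WS)
-/

set_option linter.unusedSectionVars false

open MvPolynomial Finset

namespace Pool.Agent.Helper9.WS

section

open scoped Polynomial

variable {p : ℕ} [Fact p.Prime] {κ L : Type} [Field κ] [CharP κ p] [Field L] [CharZero L]
  (Φ : Frame p κ L) {n : ℕ} {k : Type} [Field k] [Fintype k] [Algebra k κ]
  {C C' : (Fin n →₀ ℕ) → Prop} {f f' : MvPolynomial (Fin n) k} {ω : Weight p f.support C}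
  {ω' : Weight p f'.support C'} {c : Fin n → ℕ} {B M : ℕ} {γ ϖ : L}

variable (c B) in
/-- the residues of the scaled transfer matrices in the weights less than `W`, and the identity in
the other weights -/
noncomputable def Abar' (hadd : ∀ x y, Φ.v (Φ.T x + Φ.T y - Φ.T (x + y)) < 1)
    (f : MvPolynomial (Fin n) k) (ω : Weight p f.support C) (W i : ℕ) :
    Matrix (Idx p c C B ∅) (Idx p c C B ∅) (IsLocalRing.ResidueField Φ.O) := fun U V =>
  if ω.w U.vec < W ∧ ω.w V.vec < W then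
    red Φ hadd (algebraMap k κ (lead f ω i U.vec V.vec)) else if U = V then 1 else 0

theorem Abar'_det (hadd : ∀ x y, Φ.v (Φ.T x + Φ.T y - Φ.T (x + y)) < 1) {s W : ℕ}
    {low : Finset (Fin n →₀ ℕ)} (hb : Blocks f ω c s W low) (hlow : ∀ U ∈ low, ∀ i, U i ≤ B)
    {j : ℕ} (hj : j < W + 1) :
    (mprod (fun i => (fun U V => Abar' Φ c B hadd f ω W i U V :
        Matrix {U : Idx p c C B ∅ // ω.w U.vec = j} {U : Idx p c C B ∅ // ω.w U.vec = j}
          (IsLocalRing.ResidueField Φ.O))) s).det ≠ 0 := by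
  rcases Nat.lt_succ_iff_lt_or_eq.1 hj with h | h
  · have e1 : (fun i => (fun U V => Abar' Φ c B hadd f ω W i U V :
        Matrix {U : Idx p c C B ∅ // ω.w U.vec = j} {U : Idx p c C B ∅ // ω.w U.vec = j}
          (IsLocalRing.ResidueField Φ.O))) = fun i => (fun U V => Abar Φ c B hadd f ω W i U V :
        Matrix {U : Idx p c C B ∅ // ω.w U.vec = j} {U : Idx p c C B ∅ // ω.w U.vec = j}
          (IsLocalRing.ResidueField Φ.O)) := by
      funext i U V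
      have hU : ω.w U.1.vec < W := by rw [U.2]; exact h
      have hV : ω.w V.1.vec < W := by rw [V.2]; exact h
      rw [Abar', Abar, if_pos ⟨hU, hV⟩, if_pos ⟨hU, hV⟩]
    rw [e1, mprod_blk Φ hadd hb hlow h, Matrix.det_submatrix_equiv_self,
      ← RingHom.mapMatrix_apply, ← RingHom.map_det]
    exact (map_ne_zero _).2 (hb.det j)
  · have e1 : (fun i => (fun U V => Abar' Φ c B hadd f ω W i U V :
        Matrix {U : Idx p c C B ∅ // ω.w U.vec = j} {U : Idx p c C B ∅ // ω.w U.vec = j}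
          (IsLocalRing.ResidueField Φ.O))) = fun _ => (1 : Matrix {U : Idx p c C B ∅ //
            ω.w U.vec = j} {U : Idx p c C B ∅ // ω.w U.vec = j}
          (IsLocalRing.ResidueField Φ.O)) := by
      funext i U V
      have hU : ¬ ω.w U.1.vec < W := by rw [U.2]; omega
      rw [Matrix.one_apply]
      change Abar' Φ c B hadd f ω W i U.1 V.1 = _
      rw [Abar', if_neg fun h' => hU h'.1]
      simp only [Subtype.ext_iff]
    rw [e1]
    have e2 : ∀ r, mprod (fun _ => (1 : Matrix {U : Idx p c C B ∅ // ω.w U.vec = j}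
        {U : Idx p c C B ∅ // ω.w U.vec = j} (IsLocalRing.ResidueField Φ.O))) r = 1 := by
      intro r
      induction r with
      | zero => rfl
      | succ r ih => rw [mprod, ih, one_mul]
    rw [e2, Matrix.det_one]
    exact one_ne_zero

theorem low_main (hadd : ∀ x y, Φ.v (Φ.T x + Φ.T y - Φ.T (x + y)) < 1) {s W : ℕ} (hs : 0 < s)
    {low : Finset (Fin n →₀ ℕ)} (hb : Blocks f ω c s W low) (hM : p ≤ M)
    (hγ : Φ.v γ < 1) (hγ0 : γ ≠ 0) (hγp : Φ.v γ ^ (p - 1) = Φ.v (p : L)) (hϖ0 : ϖ ≠ 0)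
    (hϖ : ϖ ^ (ω.l * (p - 1)) = γ) (hlow : ∀ U ∈ low, ∀ i, U i ≤ B) :
    (lowBlock (fun x : Fin s × Idx p c C B ∅ => wZ ω 0 x.2) ((p - 1) * W)
      ((BmatZ Φ f ω c B M hγ.le hγp hϖ0 hϖ ∅ 0 s).map (IsLocalRing.residue Φ.O))).det ≠ 0 := by
  classical
  have hp : 1 < p := (Fact.out : p.Prime).one_lt
  have hw : (fun x : Fin s × Idx p c C B ∅ => (p - 1) * ω.w x.2.vec) =
      fun x => wZ ω 0 x.2 := by
    funext x
    simp [wZ]
  have hlt : ∀ x : Fin s × Idx p c C B ∅, wZ ω 0 x.2 < (p - 1) * W → ω.w x.2.vec < W := by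
    intro x hx
    have h0 : wZ ω 0 x.2 = (p - 1) * ω.w x.2.vec := by simp [wZ]
    rw [h0] at hx
    exact Nat.lt_of_mul_lt_mul_left hx
  have h1 : lowBlock (fun x : Fin s × Idx p c C B ∅ => wZ ω 0 x.2) ((p - 1) * W)
      ((BmatZ Φ f ω c B M hγ.le hγp hϖ0 hϖ ∅ 0 s).map (IsLocalRing.residue Φ.O)) =
      lowBlock (fun x : Fin s × Idx p c C B ∅ => wZ ω 0 x.2) ((p - 1) * W)
        (cyc s (Abar' Φ c B hadd f ω W)) := by
    ext x y
    have hx := hlt _ x.2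
    have hy := hlt _ y.2
    change IsLocalRing.residue Φ.O (BmatZ Φ f ω c B M hγ.le hγp hϖ0 hϖ ∅ 0 s x.1 y.1) =
      cyc s (Abar' Φ c B hadd f ω W) x.1 y.1
    by_cases h : ((y.1.1 : ℕ) + 1) % s = (x.1.1 : ℕ)
    · have h2 : cyc s (Abar' Φ c B hadd f ω W) x.1 y.1 = IsLocalRing.residue Φ.O
          (teich Φ (algebraMap k κ (lead f ω y.1.1 x.1.2.vec y.1.2.vec))) := by
        rw [cyc, if_pos h, Abar', if_pos ⟨hx, hy⟩]
        rfl
      rw [h2, residue_eq_iff]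
      have h3 : ((BmatZ Φ f ω c B M hγ.le hγp hϖ0 hϖ ∅ 0 s x.1 y.1 : Φ.O) : L) =
          scA Φ f ω c B M γ ϖ ∅ 0 y.1.1 x.1.2 y.1.2 / ϖ ^ ((p - 1) * ω.w x.1.2.vec) := by
        simp only [BmatZ, cyc, if_pos h]
        congr 2
        simp [wZ]
      rw [h3]
      exact scA_lead Φ hadd hM hγ hγ0 hϖ0 hϖ y.1.1 x.1.2 y.1.2 (fun m hm =>
        (hb.tight _ (mem_low_of hb hx) _ (mem_low_of hb hy) m hm).2)
    · have h2 : cyc s (Abar' Φ c B hadd f ω W) x.1 y.1 = 0 := by rw [cyc, if_neg h]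
      rw [h2, residue_eq_zero_iff']
      simp only [BmatZ, cyc, if_neg h]
      simp
  suffices key : (lowBlock (fun x : Fin s × Idx p c C B ∅ => (p - 1) * ω.w x.2.vec) ((p - 1) * W)
      (cyc s (Abar' Φ c B hadd f ω W))).det ≠ 0 by
    rw [h1]
    have gen : ∀ w₁ w₂ : Fin s × Idx p c C B ∅ → ℕ, w₁ = w₂ →
        (lowBlock w₁ ((p - 1) * W) (cyc s (Abar' Φ c B hadd f ω W))).det ≠ 0 →
        (lowBlock w₂ ((p - 1) * W) (cyc s (Abar' Φ c B hadd f ω W))).det ≠ 0 := by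
      rintro w₁ _ rfl h
      exact h
    exact gen _ _ hw key
  refine cyc_low (W := W + 1) (fun U : Idx p c C B ∅ => ω.w U.vec) (Abar' Φ c B hadd f ω W) hs
    (show 0 < p - 1 by omega) ?_ (fun j hj => Abar'_det Φ hadd hb hlow hj) (Nat.lt_succ_self W)
  intro i U V hU hV hUV
  by_cases h : ω.w U.vec < W ∧ ω.w V.vec < W
  · have := Abar_zero Φ hadd hb i U V h.1 h.2 hUV
    rw [Abar, if_pos h] at this
    rw [Abar', if_pos h]
    exact this
  · rw [Abar', if_neg h, if_neg]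
    rintro rfl
    exact hUV rfl

theorem low_card {s W : ℕ} {low : Finset (Fin n →₀ ℕ)} (hb : Blocks f ω c s W low)
    (hlow : ∀ U ∈ low, ∀ i, U i ≤ B) :
    (Pool.Agent.Helper9.WS.low (fun x : Fin s × Idx p c C B ∅ => wZ ω 0 x.2)
      ((p - 1) * W)).card = s * low.card := by
  classical
  have hp : 1 < p := (Fact.out : p.Prime).one_lt
  have h1 : Pool.Agent.Helper9.WS.low (fun x : Fin s × Idx p c C B ∅ => wZ ω 0 x.2)
      ((p - 1) * W) =
      (univ : Finset (Fin s)) ×ˢ (univ.filter fun U : Idx p c C B ∅ => ω.w U.vec < W) := by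
    ext x
    simp only [Pool.Agent.Helper9.WS.low, wZ, zero_mul, add_zero, Finset.mem_filter,
      Finset.mem_univ, true_and, Finset.mem_product]
    exact Nat.mul_lt_mul_left (by omega)
  rw [h1, Finset.card_product, Finset.card_univ, Fintype.card_fin]
  congr 1
  refine Finset.card_bij (fun U _ => U.vec) ?_ ?_ ?_
  · intro U hU
    exact mem_low_of hb (Finset.mem_filter.1 hU).2
  · intro U _ V _ h
    exact Idx.vec_inj h
  · intro V hV
    obtain ⟨h1, h2, h3⟩ := (hb.mem_low V).1 hV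
    obtain ⟨U, hU⟩ := exists_idx (p := p) (c := c) (C := C) (B := B) (Z := ∅) (hlow V hV)
      (fun i => ⟨by simpa using (h1 i).1, (h1 i).2⟩) h2
    exact ⟨U, Finset.mem_filter.2 ⟨Finset.mem_univ _, by rw [hU]; exact h3⟩, hU⟩

end

theorem core_mid {p : ℕ} [Fact p.Prime] {κ L : Type} [Field κ] [CharP κ p] [Field L] [CharZero L]
    [IsAlgClosed L] (Φ : Frame p κ L)
    (hadd : ∀ x y, Φ.v (Φ.T x + Φ.T y - Φ.T (x + y)) < 1) {n : ℕ} {k : Type} [Field k] [Fintype k]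
    [Algebra k κ] {s : ℕ} (hk : Fintype.card k = p ^ s) {f f' : MvPolynomial (Fin n) k}
    {c : Fin n → ℕ} (hc : ∀ j, c j < p - 1) {C C' : (Fin n →₀ ℕ) → Prop}
    {ω : Weight p f.support C} {ω' : Weight p f'.support C'}
    {W : ℕ} (hW : 0 < W) {low : Finset (Fin n →₀ ℕ)} (hb : Blocks f ω c s W low)
    (hcmp : Compare ω ω' c W)
    {ψ : AddChar (ZMod p) L} (hψ : ψ ≠ 1) {D : ℕ} (β : Fin D → L)
    (hβ : ∀ m, 0 < m → ∃ (K : Type) (_ : Field K) (_ : Fintype K) (_ : Algebra k K)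
      (_ : Algebra (ZMod p) K) (ι : K →ₐ[k] κ), Fintype.card K = Fintype.card k ^ m ∧
        ∑ i, β i ^ m = (-1) ^ n * wildSum Φ ψ c K ι f) {D' : ℕ} (b : Fin D' → L)
    (hb' : ∀ m, 0 < m → ∃ (K : Type) (_ : Field K) (_ : Fintype K) (_ : Algebra k K)
      (_ : Algebra (ZMod p) K) (ι : K →ₐ[k] κ), Fintype.card K = Fintype.card k ^ m ∧
        ∑ i, b i ^ m = (-1) ^ n * wildSum Φ ψ c K ι f')
    (hvb : ∀ i, Φ.v (b i) ^ (ω.l * (p - 1)) = Φ.v (p : L) ^ (s * W))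
    (hbb : ∀ i j, Φ.v (b i - b j) < Φ.v (b i) → i = j) :
    ∀ i j, Φ.v (p : L) ^ (s * W) ≤ Φ.v (β i) ^ (ω.l * (p - 1)) → β i = β j → i = j := by
  classical
  have hpp : p.Prime := Fact.out
  have hp : 1 < p := hpp.one_lt
  have hs : 0 < s := by
    rcases s.eq_zero_or_pos with h | h
    · rw [h, pow_zero] at hk
      have := Fintype.one_lt_card (α := k)
      omega
    · exact h
  obtain ⟨hcore1, hcore2⟩ := core Φ hadd hk hc hW hb hψ β hβ
  have hζ : IsPrimitiveRoot (ψ 1) p := by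
    have h1 : ψ 1 ^ p = 1 := by
      rw [← AddChar.map_nsmul_eq_pow, nsmul_one, CharP.cast_eq_zero, AddChar.map_zero_eq_one]
    have h2 : ψ 1 ≠ 1 := by
      intro h
      apply hψ
      ext x
      have h3 : x = x.val • (1 : ZMod p) := by rw [nsmul_one, ZMod.natCast_zmod_val]
      rw [h3, AddChar.map_nsmul_eq_pow, h, one_pow, AddChar.one_apply]
    exact (IsPrimitiveRoot.iff_orderOf).2 (orderOf_eq_prime h1 h2)
  set N := s * D + s * low.card + s * D' with hN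
  set M := (p - 1) * W * N + (p - 1) * N.factorial + p + 2 with hM
  obtain ⟨γ, hγψ, hγp⟩ := exists_gamma Φ hζ (M := M) (by omega)
  have hp0 : (p : L) ≠ 0 := Nat.cast_ne_zero.2 hpp.ne_zero
  have hvp0 : Φ.v (p : L) ≠ 0 := (Φ.v.ne_zero_iff).2 hp0
  have hγ : Φ.v γ < 1 := by
    by_contra h
    rw [not_lt] at h
    have h1 : 1 ≤ Φ.v γ ^ (p - 1) := one_le_pow₀ h
    rw [hγp] at h1
    exact absurd Φ.p_lt (not_lt.2 h1)
  have hγ0 : γ ≠ 0 := by
    rintro rfl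
    rw [map_zero, zero_pow (by omega)] at hγp
    exact hvp0 hγp.symm
  have hl : 0 < ω.l * (p - 1) := Nat.mul_pos ω.l_pos (by omega)
  obtain ⟨ϖ, hϖ⟩ := IsAlgClosed.exists_pow_nat_eq γ hl
  have hϖω' : ϖ ^ (ω'.l * (p - 1)) = γ := by rw [hcmp.l_eq]; exact hϖ
  have hϖ0 : ϖ ≠ 0 := by
    rintro rfl
    rw [zero_pow hl.ne'] at hϖ
    exact hγ0 hϖ.symm
  have hϖ' : Φ.v ϖ ^ (ω.l * (p - 1)) = Φ.v γ := by rw [← map_pow, hϖ]
  have hϖ1 : Φ.v ϖ < 1 := by
    by_contra h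
    rw [not_lt] at h
    have h1 : 1 ≤ Φ.v ϖ ^ (ω.l * (p - 1)) := one_le_pow₀ h
    rw [hϖ'] at h1
    exact absurd hγ (not_lt.2 h1)
  have hϖp : 0 < Φ.v ϖ := zero_lt_iff.2 ((Φ.v.ne_zero_iff).2 hϖ0)
  obtain ⟨B₁, hB₀, hB₁⟩ := exists_bound Φ M f (low.sup fun U => ∑ i, U i)
  obtain ⟨B, hB₁B, hB'⟩ := exists_bound Φ M f' B₁
  have hB : ∀ (γ : L) (i : ℕ), ∀ N ∈ (fac Φ M γ f i).support, ∀ j, N j ≤ B :=
    fun γ i N hN j => (hB₁ γ i N hN j).trans hB₁B
  have hlow : ∀ U ∈ low, ∀ i, U i ≤ B := by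
    intro U hU i
    refine le_trans ?_ (((Finset.le_sup (f := fun U : Fin n →₀ ℕ => ∑ i, U i) hU).trans
      hB₀).trans hB₁B)
    exact Finset.single_le_sum (f := fun i => U i) (fun _ _ => Nat.zero_le _) (Finset.mem_univ i)
  set π : Φ.O := ⟨ϖ, (Φ.O.valuation_le_one_iff _).1 hϖ1.le⟩ with hπ
  have hπ0 : π ≠ 0 := fun h => hϖ0 (congrArg Subtype.val h)
  have hπr : IsLocalRing.residue Φ.O π = 0 := (residue_eq_zero_iff' Φ).2 hϖ1
  have hM0 : 0 < M := by omega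
  set θ := (p - 1) * W with hθ
  have hexp : ∀ j, Φ.v (ϖ ^ θ) ^ j = Φ.v ϖ ^ (θ * j) := fun j => by rw [map_pow, ← pow_mul]
  -- the quotient
  obtain ⟨H, hH0, hH, hP⟩ := exists_quotient_two Φ.O (ρ := ϖ ^ θ) (by
      rw [map_pow]
      exact pow_le_one' hϖ1.le _) (pow_ne_zero _ hϖ0)
    (cyc s (scA Φ f ω c B M γ ϖ ∅ 0)) (cyc s (scA Φ f' ω' c B M γ ϖ ∅ 0)) (N := N) hs β b
    (I := ErrIdx n) (errMul n) (fun x => Fin s × Idx p c C B x.1.1)
    (fun x => Fin s × Idx p c C' B x.1.1)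
    (fun x => cyc s (scA Φ f ω c B M γ ϖ x.1.1 (x.1.1.card + (x.1.2 : ℕ))))
    (fun x => cyc s (scA Φ f' ω' c B M γ ϖ x.1.1 (x.1.1.card + (x.1.2 : ℕ)))) (by
    intro x
    have hxa : x.1.1.card ≤ x.1.1.card + (x.1.2 : ℕ) := Nat.le_add_right _ _
    have hmax : max 1 x.1.1.card ≤ x.1.1.card + (x.1.2 : ℕ) := by
      refine max_le ?_ hxa
      by_contra hcon
      have hc0 : x.1.1.card = 0 := by omega
      have hc1 : (x.1.2 : ℕ) = 0 := by omega
      exact x.2 (Prod.ext (Finset.card_eq_zero.1 hc0) (Fin.ext hc1))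
    obtain ⟨G, hG0, hG1, hG2⟩ := ratio_small Φ.O π hπ0 hπr
      (fun y : Fin s × Idx p c C B x.1.1 => wZ ω (x.1.1.card + (x.1.2 : ℕ)) y.2)
      (BmatZ Φ f ω c B M hγ.le hγp hϖ0 hϖ x.1.1 (x.1.1.card + (x.1.2 : ℕ)) s)
      (fun y : Fin s × Idx p c C' B x.1.1 => wZ ω' (x.1.1.card + (x.1.2 : ℕ)) y.2)
      (BmatZ Φ f' ω' c B M hγ.le hγp hϖ0 hϖω' x.1.1 (x.1.1.card + (x.1.2 : ℕ)) s) θ (by
        intro u
        refine Nat.mul_le_mul_left _ ?_
        exact (hb.bound u.2.vec x.1.1 (fun i => u.2.prop.1 i) u.2.prop.2).trans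
          (Nat.add_le_add_left (Nat.mul_le_mul_right _ hmax) _)) (by
        intro u
        refine Nat.mul_le_mul_left _ ?_
        rw [hcmp.l_eq]
        exact (hcmp.bound' x.1.1 u.2.vec u.2.cls u.2.prop.2).trans
          (Nat.add_le_add_left (Nat.mul_le_mul_right _ hxa) _))
      (charpolyRev_mid Φ hcmp hγ hγ0 hγp hϖ0 hϖ hϖω' hM0 hxa hp s)
    refine ⟨G, hG0, fun j hj _ => ?_, ?_⟩
    · change Φ.v _ < Φ.v (ϖ ^ θ) ^ j
      rw [hexp]
      exact hG1 j hj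
    · rw [← BmatZ_charpolyRev Φ hγ.le hγp hϖ0 hϖ, ← BmatZ_charpolyRev Φ hγ.le hγp hϖ0 hϖω']
      exact hG2) (by
    intro r hr _
    exact (trace_bound Φ hs hk hc hγ hγp hϖ0 (hB γ) hγψ β hβ hr).trans_lt
      (gamma_bound Φ (ω := ω) hγ hγp hϖ0 ω.l_pos hϖ hϖ1 le_rfl (by omega))) (by
    intro r hr _
    exact (trace_bound Φ hs hk hc hγ hγp hϖ0 (hB' γ) hγψ b hb' hr).trans_lt
      (gamma_bound Φ (ω := ω) hγ hγp hϖ0 ω.l_pos hϖ hϖ1 le_rfl (by omega)))
  have hvbθ : ∀ x : L, Φ.v x ^ (ω.l * (p - 1)) = Φ.v (p : L) ^ (s * W) ↔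
      Φ.v x = Φ.v ϖ ^ (θ * s) := by
    intro x
    rw [← hγp, ← hϖ', ← pow_mul, ← pow_mul, ← pow_left_inj₀ (a := Φ.v x) zero_le zero_le hl.ne',
      ← pow_mul]
    have : ω.l * (p - 1) * ((p - 1) * (s * W)) = θ * s * (ω.l * (p - 1)) := by
      rw [hθ]
      ring
    rw [this]
  have hleθ : ∀ x : L, Φ.v (p : L) ^ (s * W) < Φ.v x ^ (ω.l * (p - 1)) ↔
      Φ.v ϖ ^ (θ * s) < Φ.v x := by
    intro x
    rw [← hγp, ← hϖ', ← pow_mul, ← pow_mul,
      ← pow_lt_pow_iff_left₀ (a := Φ.v ϖ ^ (θ * s)) zero_le zero_le hl.ne', ← pow_mul]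
    have : ω.l * (p - 1) * ((p - 1) * (s * W)) = θ * s * (ω.l * (p - 1)) := by
      rw [hθ]
      ring
    rw [this]
  obtain ⟨h1, h2⟩ := slopes_mid Φ.O π hπ0 hπr
    (fun y : Fin s × Idx p c C B ∅ => wZ ω 0 y.2)
    (BmatZ Φ f ω c B M hγ.le hγp hϖ0 hϖ ∅ 0 s)
    (fun y : Fin s × Idx p c C' B ∅ => wZ ω' 0 y.2)
    (BmatZ Φ f' ω' c B M hγ.le hγp hϖ0 hϖω' ∅ 0 s) θ (by
      intro x y hx hy
      have hx' : ω.w x.2.vec = W := by
        have := (wZ_eq_iff hp 0 x.2).1 hx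
        rwa [zero_mul, add_zero] at this
      have hy' : ω.w y.2.vec < W := by
        have h3 : (p - 1) * ω.w y.2.vec < (p - 1) * W := by
          have : wZ ω 0 y.2 = (p - 1) * ω.w y.2.vec := by simp [wZ]
          rw [← this]
          exact hy
        exact Nat.lt_of_mul_lt_mul_left h3
      rw [residue_eq_zero_iff']
      by_cases h : ((y.1 : ℕ) + 1) % s = (x.1 : ℕ)
      · have h3 : ((BmatZ Φ f ω c B M hγ.le hγp hϖ0 hϖ ∅ 0 s x y : Φ.O) : L) =
            scA Φ f ω c B M γ ϖ ∅ 0 y.1 x.2 y.2 / ϖ ^ wZ ω 0 x.2 := by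
          simp only [BmatZ, cyc, if_pos h]
        have h4 := scA_tight Φ (c := c) (B := B) (M := M) hγ hγ0 hγp hϖ0 hϖ 0 y.1 x.2 y.2
        have h5 : tightSum Φ M f ω y.1 x.2.vec y.2.vec = 0 := by
          unfold tightSum
          refine Finset.sum_eq_zero fun m _ => ?_
          rw [if_neg]
          exact hcmp.low _ _ x.2.cls y.2.cls x.2.prop.2 y.2.prop.2 hx' hy' _
        rw [h5, mul_zero, sub_zero] at h4
        rw [h3]
        exact h4
      · simp only [BmatZ, cyc, if_neg h]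
        simp)
    (low_main Φ hadd hs hb (by omega) hγ hγ0 hγp hϖ0 hϖ hlow) (by
      intro u
      refine Nat.mul_le_mul_left _ ?_
      rw [hcmp.l_eq]
      have := hcmp.bound' ∅ u.2.vec u.2.cls u.2.prop.2
      rwa [Finset.card_empty] at this)
    (charpolyRev_mid Φ hcmp hγ hγ0 hγp hϖ0 hϖ hϖω' hM0 (a := 0) (by simp) hp s) hs (N := N) β b
    (fun i => (hvbθ _).1 (hvb i)) (fun i j hij => hbb i j (by
      rw [(hvbθ _).1 (hvb i)]
      exact hij)) (by omega) (by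
      rw [low_card hb hlow]
      omega) H hH0 (fun j hj hjN => by
      have := hH j hj hjN
      change Φ.v _ < Φ.v (ϖ ^ θ) ^ j at this
      rw [hexp] at this
      exact this) (by
      rw [BmatZ_charpolyRev Φ hγ.le hγp hϖ0 hϖ, BmatZ_charpolyRev Φ hγ.le hγp hϖ0 hϖω']
      exact hP)
  rw [low_card hb hlow] at h1
  have h1' : (univ.filter fun i => Φ.v ϖ ^ (θ * s) < Φ.v (β i)).card = low.card :=
    Nat.eq_of_mul_eq_mul_left hs h1
  -- the two sets of large eigenvalues agree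
  have hsub : (univ.filter fun i => Φ.v (p : L) ^ (s * (W - 1)) ≤ Φ.v (β i) ^ (ω.l * (p - 1))) ⊆
      univ.filter fun i => Φ.v ϖ ^ (θ * s) < Φ.v (β i) := by
    intro i hi
    refine Finset.mem_filter.2 ⟨Finset.mem_univ _, ?_⟩
    rw [← hleθ]
    refine lt_of_lt_of_le ?_ (Finset.mem_filter.1 hi).2
    refine pow_lt_pow_right_of_lt_one₀ (zero_lt_iff.2 hvp0) Φ.p_lt ?_
    exact Nat.mul_lt_mul_of_pos_left (by omega) hs
  have heq := Finset.eq_of_subset_of_card_le hsub (by rw [h1', hcore1])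
  intro i j hi hij
  rcases hi.eq_or_lt with h | h
  · exact h2 i j ((hvbθ _).1 h.symm) hij
  · have hi' : i ∈ univ.filter fun i => Φ.v ϖ ^ (θ * s) < Φ.v (β i) :=
      Finset.mem_filter.2 ⟨Finset.mem_univ _, (hleθ _).1 h⟩
    rw [← heq] at hi'
    exact hcore2 i j (Finset.mem_filter.1 hi').2 hij

end Pool.Agent.Helper9.WS
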