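import Pool.Agent.Helper9.WS.Defs2
import Pool.Agent.Helper4.WS.CoeffPrd
import Pool.Agent.Helper38.WS.SumEval
import Pool.Agent.Helper63.WS.Wild
import Pool.Agent.Helper80.WS.PsiSplit
import Pool.Agent.Helper24.WS.AH

/-!
# Wild sums: the sum as a combination of traces (project WS)
-/

set_option linter.unusedSectionVars false

open MvPolynomial Finset

namespace Pool.Agent.Helper9.WS

section

variable {L : Type} [Field L] {n : ℕ}

private lemma mul_expand_c1 (P Q : MvPolynomial (Fin n) L) (m : ℕ) :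
    P * expand m Q = ∑ N1 ∈ P.support, ∑ N2 ∈ Q.support, monomial (N1 + m • N2) (P.coeff N1 * Q.coeff N2) := by
  conv_lhs => rw [as_sum P, as_sum Q]
  rw [map_sum, sum_mul_sum]
  refine sum_congr rfl fun N1 _ => sum_congr rfl fun N2 _ => ?_
  rw [expand_monomial, monomial_mul]

private lemma mem_mul_expand_c1 {P Q : MvPolynomial (Fin n) L} {m : ℕ} {N : Fin n →₀ ℕ}
    (h : N ∈ (P * expand m Q).support) : ∃ N1 ∈ P.support, ∃ N2 ∈ Q.support, N = N1 + m • N2 := by
  classical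
  rw [mul_expand_c1, mem_support_iff, coeff_sum] at h
  obtain ⟨N1, h1, h2⟩ := exists_ne_zero_of_sum_ne_zero h
  rw [coeff_sum] at h2
  obtain ⟨N2, h3, h4⟩ := exists_ne_zero_of_sum_ne_zero h2
  rw [coeff_monomial] at h4
  refine ⟨N1, h1, N2, h3, ?_⟩
  by_contra hc
  rw [if_neg (Ne.symm hc)] at h4
  exact h4 rfl

private lemma mem_mul_c1 {S : AddSubmonoid (Fin n →₀ ℕ)} {P Q : MvPolynomial (Fin n) L} (hP : ∀ N ∈ P.support, N ∈ S)
    (hQ : ∀ N ∈ Q.support, N ∈ S) : ∀ N ∈ (P * Q).support, N ∈ S := by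
  classical
  intro N hN
  have := support_mul P Q hN
  rw [Finset.mem_add] at this
  obtain ⟨a, ha, b, hb, rfl⟩ := this
  exact S.add_mem (hP a ha) (hQ b hb)

end

section

variable {p : ℕ} [Fact p.Prime] {κ L : Type} [Field κ] [CharP κ p] [Field L] [CharZero L]
  (Φ : Frame p κ L) {n : ℕ} {k : Type} [Field k] [Algebra k κ]

private lemma fac_mem_c1 (M : ℕ) (γ : L) (f : MvPolynomial (Fin n) k) (i : ℕ) :
    ∀ N ∈ (fac Φ M γ f i).support, N ∈ AddSubmonoid.closure (f.support : Set (Fin n →₀ ℕ)) := by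
  classical
  unfold fac
  refine Finset.prod_induction _ (fun P : MvPolynomial (Fin n) L => ∀ N ∈ P.support,
    N ∈ AddSubmonoid.closure (f.support : Set (Fin n →₀ ℕ))) (fun P Q => mem_mul_c1) ?_ ?_
  · intro N hN
    have : N = 0 := by
      rw [mem_support_iff, coeff_one] at hN
      by_contra hc
      rw [if_neg (Ne.symm hc)] at hN
      exact hN rfl
    rw [this]
    exact AddSubmonoid.zero_mem _
  · intro e he N hN
    rw [mem_support_iff, coeff_sum] at hN
    obtain ⟨j, _, h2⟩ := exists_ne_zero_of_sum_ne_zero hN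
    rw [coeff_monomial] at h2
    have h3 : j • e = N := by
      by_contra hc
      rw [if_neg hc] at h2
      exact h2 rfl
    rw [← h3]
    exact AddSubmonoid.nsmul_mem _ (AddSubmonoid.subset_closure he) j

private lemma prd_succ_c1 (M : ℕ) (γ : L) (f : MvPolynomial (Fin n) k) (r : ℕ) :
    prd Φ M γ f (r + 1) = prd Φ M γ f r * expand (p ^ r) (fac Φ M γ f r) := by
  unfold prd
  rw [prod_range_succ]

private lemma prd_mem_c1 (M : ℕ) (γ : L) (f : MvPolynomial (Fin n) k) (r : ℕ) :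
    ∀ N ∈ (prd Φ M γ f r).support, N ∈ AddSubmonoid.closure (f.support : Set (Fin n →₀ ℕ)) := by
  classical
  induction r with
  | zero =>
    intro N hN
    have : N = 0 := by
      unfold prd at hN
      rw [range_zero, prod_empty, mem_support_iff, coeff_one] at hN
      by_contra hc
      rw [if_neg (Ne.symm hc)] at hN
      exact hN rfl
    rw [this]
    exact AddSubmonoid.zero_mem _
  | succ r ih =>
    intro N hN
    rw [prd_succ_c1] at hN
    obtain ⟨N1, h1, N2, h2, rfl⟩ := mem_mul_expand_c1 hN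
    exact AddSubmonoid.add_mem _ (ih N1 h1) (AddSubmonoid.nsmul_mem _ (fac_mem_c1 Φ M γ f r N2 h2) _)

private lemma prd_bound_c1 (M : ℕ) (γ : L) (f : MvPolynomial (Fin n) k) (B : ℕ)
    (hB : ∀ i, ∀ N ∈ (fac Φ M γ f i).support, ∀ j, N j ≤ B) (r : ℕ) :
    ∀ N ∈ (prd Φ M γ f r).support, ∀ j, (p - 1) * N j + B ≤ p ^ r * B := by
  classical
  induction r with
  | zero =>
    intro N hN j
    have : N = 0 := by
      unfold prd at hN
      rw [range_zero, prod_empty, mem_support_iff, coeff_one] at hN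
      by_contra hc
      rw [if_neg (Ne.symm hc)] at hN
      exact hN rfl
    rw [this]
    simp
  | succ r ih =>
    intro N hN j
    rw [prd_succ_c1] at hN
    obtain ⟨N1, h1, N2, h2, rfl⟩ := mem_mul_expand_c1 hN
    have e1 := ih N1 h1 j
    have e2 := hB r N2 h2 j
    have hp : 1 ≤ p := (Fact.out : p.Prime).one_lt.le
    obtain ⟨t, rfl⟩ : ∃ t, p = t + 1 := ⟨p - 1, by omega⟩
    rw [Finsupp.add_apply, Finsupp.smul_apply, smul_eq_mul, pow_succ]
    simp only [Nat.add_sub_cancel] at e1 ⊢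
    have e3 : t * ((t + 1) ^ r * N2 j) ≤ t * ((t + 1) ^ r * B) :=
      Nat.mul_le_mul_left _ (Nat.mul_le_mul_left _ e2)
    nlinarith

private lemma C_closure_c1 {f : MvPolynomial (Fin n) k} {C : (Fin n →₀ ℕ) → Prop}
    (hCe : ∀ e ∈ f.support, ∀ U, C U → C (U + e)) {N : Fin n →₀ ℕ}
    (hN : N ∈ AddSubmonoid.closure (f.support : Set (Fin n →₀ ℕ))) : ∀ U, C U → C (U + N) := by
  induction hN using AddSubmonoid.closure_induction with
  | mem e he => exact hCe e he
  | zero =>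
    intro U hU
    rwa [add_zero]
  | add a b _ _ ha hb =>
    intro U hU
    rw [← add_assoc]
    exact hb _ (ha U hU)

private lemma vec_apply_c1 {c : Fin n → ℕ} {C : (Fin n →₀ ℕ) → Prop} {B : ℕ} {Z : Finset (Fin n)} (U : Idx p c C B Z)
    (j : Fin n) : U.vec j = (U.1 j : ℕ) := rfl

private lemma vec_inj_c1 {c : Fin n → ℕ} {C : (Fin n →₀ ℕ) → Prop} {B : ℕ} {Z : Finset (Fin n)} {U V : Idx p c C B Z}
    (h : U.vec = V.vec) : U = V := by
  apply Subtype.ext
  funext j
  apply Fin.ext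
  exact DFunLike.congr_fun h j

/-- an index from a vector -/
theorem exists_idx {c : Fin n → ℕ} {C : (Fin n →₀ ℕ) → Prop} {B : ℕ} {Z : Finset (Fin n)} {W : Fin n →₀ ℕ}
    (h1 : ∀ j, W j ≤ B) (h2 : ∀ j, (j ∈ Z ↔ W j = 0) ∧ (p - 1) ∣ W j + c j) (h3 : C W) :
    ∃ U : Idx p c C B Z, U.vec = W := by
  refine ⟨⟨fun j => ⟨W j, Nat.lt_succ_of_le (h1 j)⟩, fun j => h2 j, ?_⟩, ?_⟩
  · have : (Finsupp.equivFunOnFinite.symm fun j => ((⟨W j, Nat.lt_succ_of_le (h1 j)⟩ : Fin (B + 1)) : ℕ)) = W := by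
      ext j
      rfl
    rw [this]
    exact h3
  · ext j
    rfl


theorem Idx.vec_inj {c : Fin n → ℕ} {C : (Fin n →₀ ℕ) → Prop} {B : ℕ} {Z : Finset (Fin n)}
    {U V : Idx p c C B Z} (h : U.vec = V.vec) : U = V := vec_inj_c1 h

theorem Idx.prop {c : Fin n → ℕ} {C : (Fin n →₀ ℕ) → Prop} {B : ℕ} {Z : Finset (Fin n)}
    (U : Idx p c C B Z) : (∀ j, (j ∈ Z ↔ U.vec j = 0) ∧ (p - 1) ∣ U.vec j + c j) ∧ C U.vec :=
  ⟨fun j => U.2.1 j, U.2.2⟩

theorem exists_bound (M : ℕ) (f : MvPolynomial (Fin n) k) (B₀ : ℕ) : ∃ B, B₀ ≤ B ∧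
    ∀ (γ : L) (i : ℕ), ∀ N ∈ (fac Φ M γ f i).support, ∀ j, N j ≤ B := by
  classical
  refine ⟨B₀ + ∑ e ∈ f.support, ∑ j, M * e j, by omega, ?_⟩
  intro γ i N hN j
  have h1 := monomial_le_degreeOf j hN
  refine (h1.trans ?_).trans (Nat.le_add_left _ _)
  unfold fac
  refine (degreeOf_prod_le _ _ _).trans (Finset.sum_le_sum fun e he => ?_)
  refine (degreeOf_sum_le _ _ _).trans (Finset.sup_le fun l hl => ?_)
  have h2 : degreeOf j (monomial (l • e) (((ah p l : ℚ) : L) *
      (γ * Φ.T (algebraMap k κ (f.coeff e)) ^ p ^ i) ^ l)) ≤ l * e j := by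
    by_cases h : (((ah p l : ℚ) : L) * (γ * Φ.T (algebraMap k κ (f.coeff e)) ^ p ^ i) ^ l) = 0
    · rw [h, map_zero, degreeOf_zero]
      exact Nat.zero_le _
    · rw [degreeOf_monomial_eq _ _ h]
      simp
  refine h2.trans ?_
  refine (Nat.mul_le_mul_right _ (Finset.mem_range.1 hl).le).trans ?_
  exact Finset.single_le_sum (f := fun j => M * e j) (fun _ _ => Nat.zero_le _) (Finset.mem_univ j)

end

/-- the coefficients -/
theorem sign_identity {L : Type} [Field L] (Q : L) {n z : ℕ} (hz : z ≤ n) :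
    (-1 : L) ^ n * ((Q - 1) ^ (n - z) * Q ^ z) =
      ∑ j : Fin (n + 1), (-1) ^ (z + (j : ℕ)) * ((n - z).choose j : L) * Q ^ (z + (j : ℕ)) := by
  obtain ⟨m, rfl⟩ : ∃ m, n = z + m := ⟨n - z, by omega⟩
  rw [Nat.add_sub_cancel_left]
  rw [Fin.sum_univ_eq_sum_range (fun j => (-1 : L) ^ (z + j) * (m.choose j : L) * Q ^ (z + j))]
  have h1 : (Q - 1) ^ m = (-1) ^ m * (-Q + 1) ^ m := by
    rw [← mul_pow]
    congr 1
    ring
  have h2 : (-1 : L) ^ (z + m) * (-1) ^ m = (-1) ^ z := by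
    rw [pow_add, mul_assoc, ← mul_pow]
    simp
  have h3 : ∑ j ∈ range (z + m + 1), (-1 : L) ^ (z + j) * (m.choose j : L) * Q ^ (z + j) =
      ∑ j ∈ range (m + 1), (-1 : L) ^ (z + j) * (m.choose j : L) * Q ^ (z + j) := by
    refine (Finset.sum_subset (Finset.range_subset_range.2 (by omega)) fun j _ hj => ?_).symm
    rw [Nat.choose_eq_zero_of_lt (by simpa using hj)]
    simp
  rw [h3, h1, add_pow, ← mul_assoc, ← mul_assoc, h2, Finset.mul_sum, Finset.sum_mul]
  refine Finset.sum_congr rfl fun j _ => ?_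
  rw [pow_add, pow_add, neg_pow Q]
  ring

section

variable {p : ℕ} [Fact p.Prime] {κ L : Type} [Field κ] [CharP κ p] [Field L] [CharZero L]
  (Φ : Frame p κ L) {n : ℕ} {k : Type} [Field k] [Algebra k κ]

/-- the sum as a combination of traces of products of transfer matrices -/
theorem wildSum_trace {M : ℕ} {γ : L} (hγ : Φ.v γ ≤ 1) (hγp : Φ.v (p : L) ≤ Φ.v γ)
    {ψ : AddChar (ZMod p) L} (hψ : ev p M γ = ψ 1) {c : Fin n → ℕ} (hc : ∀ j, c j < p - 1)
    {K : Type} [Field K] [Fintype K] [Algebra k K] [Algebra (ZMod p) K] (ι : K →ₐ[k] κ) {r : ℕ}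
    (hr : Fintype.card K = p ^ r) (f : MvPolynomial (Fin n) k) {C : (Fin n →₀ ℕ) → Prop}
    (ω : Weight p f.support C) {B : ℕ}
    (hB : ∀ i, ∀ N ∈ (fac Φ M γ f i).support, ∀ j, N j ≤ B) :
    Φ.v ((-1) ^ n * wildSum Φ ψ c K ι f - ∑ x : Finset (Fin n) × Fin (n + 1),
      (-1) ^ (x.1.card + (x.2 : ℕ)) * ((n - x.1.card).choose x.2 : L) *
        ((p : L) ^ r) ^ (x.1.card + (x.2 : ℕ)) *
          (mprod (fun i => trans p c C B x.1 (fac Φ M γ f i)) r).trace) ≤ Φ.v γ ^ M := by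
  classical
  have hp : 1 < p := (Fact.out : p.Prime).one_lt
  have h1 := wildSum_eval_of Φ (v_ah Φ) M hγ ψ c ι (psi_split Φ M hγ hγp ψ hψ ι.toRingHom hr) f
  have hR : 0 < r := by
    rcases r.eq_zero_or_pos with h | h
    · rw [h, pow_zero] at hr
      have := Fintype.one_lt_card (α := K)
      omega
    · exact h
  have hR1 : (p ^ r - 1) / (p - 1) * (p - 1) = p ^ r - 1 :=
    Nat.div_mul_cancel (by simpa using Nat.sub_dvd_pow_sub_pow p 1 r)
  have hR0 : 0 < (p ^ r - 1) / (p - 1) := by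
    rcases Nat.eq_zero_or_pos ((p ^ r - 1) / (p - 1)) with h | h
    · rw [h, zero_mul] at hR1
      have := Nat.one_lt_pow hR.ne' hp
      omega
    · exact h
  have h2 := sum_eval Φ c hc (ι : K →+* κ) hr C B (prd Φ M γ f r) (by
    intro N hN U hU
    have h3 := prd_mem_c1 Φ M γ f r N hN
    have h4 := C_closure_c1 ω.C_exp h3 0 ω.C_zero
    rw [zero_add, hU] at h4
    exact ω.C_smul _ _ hR0 h4) (by
    intro N hN j
    have h3 := prd_bound_c1 Φ M γ f B hB r N hN j
    have h4 : (p - 1) * N j ≤ (p - 1) * (((p ^ r - 1) / (p - 1)) * B) := by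
      have h5 : (p ^ r - 1) * B = p ^ r * B - B := by rw [Nat.sub_mul, one_mul]
      rw [← mul_assoc, mul_comm (p - 1) ((p ^ r - 1) / (p - 1)), hR1, h5]
      omega
    exact Nat.le_of_mul_le_mul_left h4 (by omega))
  have h3 : (-1 : L) ^ n * ∑ x : Fin n → K,
      (∏ j, Φ.T (ι (x j)) ^ (c j * ((Fintype.card K - 1) / (p - 1)))) *
        eval (fun j => Φ.T (ι (x j))) (prd Φ M γ f r) = ∑ x : Finset (Fin n) × Fin (n + 1),
      (-1) ^ (x.1.card + (x.2 : ℕ)) * ((n - x.1.card).choose x.2 : L) *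
        ((p : L) ^ r) ^ (x.1.card + (x.2 : ℕ)) *
          (mprod (fun i => trans p c C B x.1 (fac Φ M γ f i)) r).trace := by
    have h2' : ∑ x : Fin n → K,
      (∏ j, Φ.T (ι (x j)) ^ (c j * ((Fintype.card K - 1) / (p - 1)))) *
        eval (fun j => Φ.T (ι (x j))) (prd Φ M γ f r) =
        ∑ Z : Finset (Fin n), ((p : L) ^ r - 1) ^ (n - Z.card) * ((p : L) ^ r) ^ Z.card *
        ∑ U : Idx p c C B Z, (prd Φ M γ f r).coeff (((p ^ r - 1) / (p - 1)) • U.vec) := h2
    rw [h2', Finset.mul_sum, Fintype.sum_prod_type]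
    refine Finset.sum_congr rfl fun Z _ => ?_
    rw [coeff_prd Φ M γ f c C ω.C_zero ω.C_exp (fun m U hm => ω.C_smul m U hm) B hB Z r,
      ← mul_assoc, sign_identity _ (by simpa using Z.card_le_univ), Finset.sum_mul]
  rw [← h3, ← mul_sub, map_mul]
  have h4 : Φ.v ((-1 : L) ^ n) = 1 := by
    rw [map_pow, Valuation.map_neg, map_one, one_pow]
  rw [h4, one_mul]
  exact h1

/-- conjugation by a diagonal matrix and a scalar -/
def conj {I : Type} (q : L) (d : I → L) (A : Matrix I I L) : Matrix I I L :=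
  fun U V => q * (A U V * d V / d U)

theorem mprod_conj {I : Type} [Fintype I] [DecidableEq I] (q : L) {d : I → L} (hd : ∀ U, d U ≠ 0)
    (A : ℕ → Matrix I I L) (r : ℕ) :
    mprod (fun i => conj q d (A i)) r = conj (q ^ r) d (mprod A r) := by
  induction r with
  | zero =>
    ext U V
    simp only [mprod, conj, pow_zero, one_mul, Matrix.one_apply]
    split_ifs with h
    · rw [h, one_mul, div_self (hd V)]
    · simp
  | succ r ih =>
    ext U V
    simp only [mprod]
    rw [ih, Matrix.mul_apply, conj, Matrix.mul_apply, Finset.sum_mul, Finset.sum_div,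
      Finset.mul_sum]
    refine Finset.sum_congr rfl fun W _ => ?_
    simp only [conj]
    have := hd W
    have := hd U
    field_simp
    ring

theorem trace_conj {I : Type} [Fintype I] (q : L) {d : I → L} (hd : ∀ U, d U ≠ 0)
    (A : Matrix I I L) : (conj q d A).trace = q * A.trace := by
  simp only [Matrix.trace, Matrix.diag_apply, conj, Finset.mul_sum]
  refine Finset.sum_congr rfl fun U _ => ?_
  rw [mul_div_assoc, div_self (hd U), mul_one]

/-- the splitting factors are periodic -/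
theorem fac_periodic [Fintype k] {s : ℕ} (hk : Fintype.card k = p ^ s) (M : ℕ) (γ : L)
    (f : MvPolynomial (Fin n) k) (i : ℕ) : fac Φ M γ f (i + s) = fac Φ M γ f i := by
  unfold fac
  refine Finset.prod_congr rfl fun e _ => Finset.sum_congr rfl fun j _ => ?_
  have h : Φ.T (algebraMap k κ (f.coeff e)) ^ p ^ (i + s) =
      Φ.T (algebraMap k κ (f.coeff e)) ^ p ^ i := by
    rw [pow_add, mul_comm, pow_mul, ← map_pow, ← hk, ← map_pow (algebraMap k κ),
      FiniteField.pow_card]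
  rw [h]

end

end Pool.Agent.Helper9.WS
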