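import Pool.Agent.Helper9.WS.Core1
import Pool.Agent.Helper9.WS.LA
import Pool.Agent.Helper67.WS.Coeff

/-!
# Wild sums: residues of the transfer matrices (project WS)
-/

set_option linter.unusedSectionVars false

open MvPolynomial Finset

namespace Pool.Agent.Helper9.WS

/-! ### matrices -/

theorem mprod_map {I R S : Type} [Fintype I] [DecidableEq I] [CommRing R] [CommRing S]
    (φ : R →+* S) (A : ℕ → Matrix I I R) (r : ℕ) :
    mprod (fun i => (A i).map φ) r = (mprod A r).map φ := by
  induction r with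
  | zero =>
    ext U V
    simp only [mprod, Matrix.map_apply, Matrix.one_apply]
    split_ifs <;> simp
  | succ r ih => simp only [mprod, ih, Matrix.map_mul]

theorem mprod_submatrix {I J R : Type} [Fintype I] [DecidableEq I] [Fintype J] [DecidableEq J]
    [CommRing R] (e : J ≃ I) (A : ℕ → Matrix I I R) (r : ℕ) :
    mprod (fun i => (A i).submatrix e e) r = (mprod A r).submatrix e e := by
  induction r with
  | zero => simp only [mprod, Matrix.submatrix_one_equiv]
  | succ r ih => simp only [mprod, ih, Matrix.submatrix_mul_equiv]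

theorem charpolyRev_submatrix {I J R : Type} [Fintype I] [DecidableEq I] [Fintype J]
    [DecidableEq J] [CommRing R] (e : J ≃ I) (A : Matrix I I R) :
    (A.submatrix e e).charpolyRev = A.charpolyRev := by
  unfold Matrix.charpolyRev
  rw [← Matrix.det_submatrix_equiv_self e (1 - (Polynomial.X : Polynomial R) • A.map Polynomial.C)]
  congr 1
  ext1 i j
  simp [Matrix.one_apply]

theorem charpolyRev_map {I R S : Type} [Fintype I] [DecidableEq I] [CommRing R] [CommRing S]
    (φ : R →+* S) (A : Matrix I I R) : (A.map φ).charpolyRev = A.charpolyRev.map φ := by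
  unfold Matrix.charpolyRev
  rw [← Polynomial.coe_mapRingHom, RingHom.map_det]
  congr 1
  ext1 i j
  simp only [Matrix.sub_apply, Matrix.smul_apply, Matrix.map_apply, RingHom.mapMatrix_apply,
    Polynomial.coe_mapRingHom, smul_eq_mul, Polynomial.map_sub, Polynomial.map_mul,
    Polynomial.map_X, Polynomial.map_C, Matrix.one_apply]
  split_ifs <;> simp

theorem det_mprod {I R : Type} [Fintype I] [DecidableEq I] [CommRing R] (A : ℕ → Matrix I I R)
    (r : ℕ) : (mprod A r).det = ∏ i ∈ range r, (A i).det := by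
  induction r with
  | zero => simp [mprod]
  | succ r ih => rw [mprod, Matrix.det_mul, ih, prod_range_succ, mul_comm]

/-! ### the residue field -/

section

variable {p : ℕ} {κ L : Type} [Field κ] [Field L] (Φ : Frame p κ L)

theorem residue_eq_iff {x y : Φ.O} : IsLocalRing.residue Φ.O x = IsLocalRing.residue Φ.O y ↔
    Φ.v ((x : L) - y) < 1 := by
  rw [← sub_eq_zero, ← map_sub, IsLocalRing.residue_eq_zero_iff, Φ.O.valuation_lt_one_iff]
  rfl

theorem residue_eq_zero_iff' {x : Φ.O} : IsLocalRing.residue Φ.O x = 0 ↔ Φ.v (x : L) < 1 := by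
  rw [IsLocalRing.residue_eq_zero_iff, Φ.O.valuation_lt_one_iff]

/-- the Teichmüller representative as an element of the valuation ring -/
noncomputable def teich (x : κ) : Φ.O := ⟨Φ.T x, (Φ.O.valuation_le_one_iff _).1 (Φ.T_le x)⟩

/-- the embedding of `κ` into the residue field -/
noncomputable def red (hadd : ∀ x y, Φ.v (Φ.T x + Φ.T y - Φ.T (x + y)) < 1) :
    κ →+* IsLocalRing.ResidueField Φ.O where
  toFun x := IsLocalRing.residue Φ.O (teich Φ x)
  map_one' := by
    have : teich Φ 1 = 1 := Subtype.ext (map_one Φ.T)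
    rw [this, map_one]
  map_zero' := by
    have : teich Φ 0 = 0 := Subtype.ext (map_zero Φ.T)
    rw [this, map_zero]
  map_mul' x y := by
    have : teich Φ (x * y) = teich Φ x * teich Φ y := Subtype.ext (map_mul Φ.T x y)
    rw [this, map_mul]
  map_add' x y := by
    rw [← map_add, eq_comm, residue_eq_iff]
    exact hadd x y

end

section

variable {p : ℕ} [Fact p.Prime] {κ L : Type} [Field κ] [CharP κ p] [Field L] [CharZero L]
  (Φ : Frame p κ L) {n : ℕ} {k : Type} [Field k] [Algebra k κ]

/-! ### the entries of the transfer matrix -/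

theorem trans_eq {c : Fin n → ℕ} {C : (Fin n →₀ ℕ) → Prop} {B : ℕ} {Z : Finset (Fin n)}
    (P : MvPolynomial (Fin n) L) (U V : Idx p c C B Z) {N : Fin n →₀ ℕ}
    (h : (p - 1) • N + V.vec = p • U.vec) : trans p c C B Z P U V = P.coeff N := by
  classical
  have hp : 1 < p := (Fact.out : p.Prime).one_lt
  have key : ∀ N' : Fin n →₀ ℕ, (p - 1) • N' + V.vec = p • U.vec → N' = N := by
    intro N' h'
    have h1 : (p - 1) • N' = (p - 1) • N := add_right_cancel (h'.trans h.symm)
    ext j
    have h2 := DFunLike.congr_fun h1 j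
    simp only [Finsupp.smul_apply, smul_eq_mul] at h2
    exact Nat.eq_of_mul_eq_mul_left (by omega) h2
  unfold trans
  by_cases hN : N ∈ P.support
  · rw [Finset.sum_eq_single N]
    · rw [if_pos h]
    · intro N' _ hne
      rw [if_neg fun h' => hne (key N' h')]
    · intro h'
      exact absurd hN h'
  · rw [MvPolynomial.notMem_support_iff.1 hN]
    refine Finset.sum_eq_zero fun N' hN' => ?_
    rw [if_neg]
    intro h'
    rw [key N' h'] at hN'
    exact hN hN'

theorem trans_eq_zero {c : Fin n → ℕ} {C : (Fin n →₀ ℕ) → Prop} {B : ℕ} {Z : Finset (Fin n)}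
    (P : MvPolynomial (Fin n) L) (U V : Idx p c C B Z)
    (h : ∀ N : Fin n →₀ ℕ, (p - 1) • N + V.vec ≠ p • U.vec) : trans p c C B Z P U V = 0 := by
  unfold trans
  refine Finset.sum_eq_zero fun N _ => ?_
  rw [if_neg (h N)]

variable {C : (Fin n →₀ ℕ) → Prop} (f : MvPolynomial (Fin n) k) (ω : Weight p f.support C)

theorem v_trans_le (M : ℕ) {γ ϖ : L} (hγ : Φ.v γ ≤ 1) (hϖ : Φ.v ϖ ^ (ω.l * (p - 1)) = Φ.v γ)
    (i : ℕ) {c : Fin n → ℕ} {B : ℕ} {Z : Finset (Fin n)} (U V : Idx p c C B Z) :
    Φ.v (trans p c C B Z (fac Φ M γ f i) U V) * Φ.v ϖ ^ ω.w V.vec ≤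
      Φ.v ϖ ^ (p * ω.w U.vec) := by
  by_cases h : ∃ N : Fin n →₀ ℕ, (p - 1) • N + V.vec = p • U.vec
  · obtain ⟨N, hN⟩ := h
    rw [trans_eq _ U V hN]
    exact v_coeff_le Φ f ω M hγ hϖ i hN
  · push Not at h
    rw [trans_eq_zero _ U V h, map_zero, zero_mul]
    exact zero_le

end

end Pool.Agent.Helper9.WS
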