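import Pool.Agent.Helper9.WS.Core2
import Pool.Agent.Helper83.WS.Slopes
import Pool.Agent.Helper21.WS.CycBlk
import Pool.Agent.Helper95.WS.Quot
import Pool.Agent.Helper38.WS.SepRev

/-!
# Wild sums: the blocks of the scaled transfer matrix (project WS)
-/

set_option linter.unusedSectionVars false

open MvPolynomial Finset

namespace Pool.Agent.Helper9.WS

section

variable {p : ℕ} [Fact p.Prime] {κ L : Type} [Field κ] [CharP κ p] [Field L] [CharZero L]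
  (Φ : Frame p κ L) {n : ℕ} {k : Type} [Field k] [Algebra k κ]
  {C : (Fin n →₀ ℕ) → Prop} (f : MvPolynomial (Fin n) k) (ω : Weight p f.support C)

/-- the scaled transfer matrices -/
noncomputable def scA (c : Fin n → ℕ) (B M : ℕ) (γ ϖ : L) (Z : Finset (Fin n)) (a i : ℕ) :
    Matrix (Idx p c C B Z) (Idx p c C B Z) L :=
  conj ((p : L) ^ a) (fun U => ϖ ^ ω.w U.vec) (trans p c C B Z (fac Φ M γ f i))

variable {f ω} {c : Fin n → ℕ} {B M : ℕ} {γ ϖ : L}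

theorem v_scA_le (hγ : Φ.v γ ≤ 1) (hϖ0 : ϖ ≠ 0) (hϖ : Φ.v ϖ ^ (ω.l * (p - 1)) = Φ.v γ)
    {Z : Finset (Fin n)} (a i : ℕ) (U V : Idx p c C B Z) :
    Φ.v (scA Φ f ω c B M γ ϖ Z a i U V) ≤ Φ.v (p : L) ^ a * Φ.v ϖ ^ ((p - 1) * ω.w U.vec) := by
  have hp : 1 < p := (Fact.out : p.Prime).one_lt
  have h1 := v_trans_le Φ f ω M hγ hϖ i U V
  have h0 : Φ.v ϖ ^ ω.w U.vec ≠ 0 := pow_ne_zero _ ((Φ.v.ne_zero_iff).2 hϖ0)
  simp only [scA, conj, map_mul, map_div₀, map_pow]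
  refine mul_le_mul_right ?_ _
  rw [div_le_iff₀ (zero_lt_iff.2 h0), ← pow_add]
  have h2 : (p - 1) * ω.w U.vec + ω.w U.vec = p * ω.w U.vec := by
    rw [← Nat.succ_mul]
    congr 1
    omega
  rw [h2]
  exact h1

theorem scA_lead (hadd : ∀ x y, Φ.v (Φ.T x + Φ.T y - Φ.T (x + y)) < 1) (hM : p ≤ M)
    (hγ : Φ.v γ < 1) (hγ0 : γ ≠ 0) (hϖ0 : ϖ ≠ 0) (hϖ : ϖ ^ (ω.l * (p - 1)) = γ) (i : ℕ)
    {Z : Finset (Fin n)} (U V : Idx p c C B Z)
    (hm : ∀ m, IsTight ω U.vec V.vec m → ∀ e ∈ f.support, m e < p) :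
    Φ.v (scA Φ f ω c B M γ ϖ Z 0 i U V / ϖ ^ ((p - 1) * ω.w U.vec) -
      Φ.T (algebraMap k κ (lead f ω i U.vec V.vec))) < 1 := by
  have hp : 1 < p := (Fact.out : p.Prime).one_lt
  have hϖv : Φ.v ϖ ≠ 0 := (Φ.v.ne_zero_iff).2 hϖ0
  have h2 : ω.w U.vec + (p - 1) * ω.w U.vec = p * ω.w U.vec := by
    rw [add_comm, ← Nat.succ_mul]
    congr 1
    omega
  have e1 : scA Φ f ω c B M γ ϖ Z 0 i U V / ϖ ^ ((p - 1) * ω.w U.vec) =
      trans p c C B Z (fac Φ M γ f i) U V * ϖ ^ ω.w V.vec / ϖ ^ (p * ω.w U.vec) := by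
    simp only [scA, conj, pow_zero, one_mul]
    rw [div_div, ← pow_add, h2]
  rw [e1]
  by_cases h : ∃ N : Fin n →₀ ℕ, (p - 1) • N + V.vec = p • U.vec
  · obtain ⟨N, hN⟩ := h
    rw [trans_eq _ U V hN]
    have h3 := v_coeff_lead Φ f ω hadd hM hγ hγ0 hϖ i hN hm
    have h4 : (fac Φ M γ f i).coeff N * ϖ ^ ω.w V.vec / ϖ ^ (p * ω.w U.vec) -
        Φ.T (algebraMap k κ (lead f ω i U.vec V.vec)) =
        ((fac Φ M γ f i).coeff N * ϖ ^ ω.w V.vec -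
      ϖ ^ (p * ω.w U.vec) * Φ.T (algebraMap k κ (lead f ω i U.vec V.vec))) /
        ϖ ^ (p * ω.w U.vec) := by
      rw [sub_div, mul_div_cancel_left₀ _ (pow_ne_zero _ hϖ0)]
    rw [h4, map_div₀, map_pow, div_lt_one₀ (zero_lt_iff.2 (pow_ne_zero _ hϖv))]
    exact h3
  · push Not at h
    rw [trans_eq_zero _ U V h]
    have h5 : lead f ω i U.vec V.vec = 0 := by
      classical
      unfold lead
      refine Finset.sum_eq_zero fun m _ => ?_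
      rw [if_neg]
      rintro ⟨h6, _⟩
      exact h _ h6
    rw [h5]
    simp

/-! ### the integral matrix and its residue -/

variable (c B M) in
/-- the scaled cyclic matrix, divided by the powers of `ϖ` -/
noncomputable def Bmat (hγ : Φ.v γ ≤ 1) (hϖ0 : ϖ ≠ 0) (hϖ : Φ.v ϖ ^ (ω.l * (p - 1)) = Φ.v γ)
    (s : ℕ) : Matrix (Fin s × Idx p c C B ∅) (Fin s × Idx p c C B ∅) Φ.O := fun x y =>
  ⟨cyc s (scA Φ f ω c B M γ ϖ ∅ 0) x y / ϖ ^ ((p - 1) * ω.w x.2.vec), by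
    rw [← Φ.O.valuation_le_one_iff, map_div₀, map_pow]
    have hϖv : Φ.v ϖ ≠ 0 := (Φ.v.ne_zero_iff).2 hϖ0
    rw [div_le_one₀ (zero_lt_iff.2 (pow_ne_zero _ hϖv))]
    unfold cyc
    split_ifs
    · have h := v_scA_le Φ (c := c) (B := B) (M := M) hγ hϖ0 hϖ (Z := ∅) 0 y.1 x.2 y.2
      rwa [pow_zero, one_mul] at h
    · rw [map_zero]
      exact zero_le⟩

variable (c B) in
/-- the residues of the scaled transfer matrices in the weights less than `W` -/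
noncomputable def Abar (hadd : ∀ x y, Φ.v (Φ.T x + Φ.T y - Φ.T (x + y)) < 1)
    (f : MvPolynomial (Fin n) k) (ω : Weight p f.support C) (W i : ℕ) :
    Matrix (Idx p c C B ∅) (Idx p c C B ∅) (IsLocalRing.ResidueField Φ.O) := fun U V =>
  if ω.w U.vec < W ∧ ω.w V.vec < W then
    red Φ hadd (algebraMap k κ (lead f ω i U.vec V.vec)) else 0

theorem mem_low_of {s W : ℕ} {low : Finset (Fin n →₀ ℕ)} (hb : Blocks f ω c s W low)
    {U : Idx p c C B ∅} (hU : ω.w U.vec < W) : U.vec ∈ low := by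
  rw [hb.mem_low]
  refine ⟨fun j => ⟨fun h => ?_, (U.prop.1 j).2⟩, U.prop.2, hU⟩
  exact Finset.notMem_empty _ ((U.prop.1 j).1.2 h)

theorem residue_Bmat (hadd : ∀ x y, Φ.v (Φ.T x + Φ.T y - Φ.T (x + y)) < 1) {s W : ℕ}
    {low : Finset (Fin n →₀ ℕ)} (hb : Blocks f ω c s W low) (hM : p ≤ M)
    (hγ : Φ.v γ < 1) (hγ0 : γ ≠ 0) (hϖ0 : ϖ ≠ 0) (hϖ : ϖ ^ (ω.l * (p - 1)) = γ)
    (hϖ' : Φ.v ϖ ^ (ω.l * (p - 1)) = Φ.v γ)
    {x y : Fin s × Idx p c C B ∅} (hx : ω.w x.2.vec < W) (hy : ω.w y.2.vec < W) :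
    IsLocalRing.residue Φ.O (Bmat Φ c B M (f := f) hγ.le hϖ0 hϖ' s x y) =
      cyc s (Abar Φ c B hadd f ω W) x y := by
  by_cases h : ((y.1 : ℕ) + 1) % s = (x.1 : ℕ)
  · have h1 := scA_lead Φ hadd hM hγ hγ0 hϖ0 hϖ y.1 x.2 y.2 (fun m hm =>
      (hb.tight _ (mem_low_of hb hx) _ (mem_low_of hb hy) m hm).2)
    have h2 : cyc s (Abar Φ c B hadd f ω W) x y =
        IsLocalRing.residue Φ.O (teich Φ (algebraMap k κ (lead f ω y.1 x.2.vec y.2.vec))) := by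
      rw [cyc, if_pos h, Abar, if_pos ⟨hx, hy⟩]
      rfl
    rw [h2, residue_eq_iff]
    have h3 : ((Bmat Φ c B M (f := f) hγ.le hϖ0 hϖ' s x y : Φ.O) : L) =
        scA Φ f ω c B M γ ϖ ∅ 0 y.1 x.2 y.2 / ϖ ^ ((p - 1) * ω.w x.2.vec) := by
      simp only [Bmat, cyc, if_pos h]
    rw [h3]
    exact h1
  · have h2 : cyc s (Abar Φ c B hadd f ω W) x y = 0 := by
      rw [cyc, if_neg h]
    rw [h2, residue_eq_zero_iff']
    simp only [Bmat, cyc, if_neg h]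
    simp

theorem Abar_zero (hadd : ∀ x y, Φ.v (Φ.T x + Φ.T y - Φ.T (x + y)) < 1) {s W : ℕ}
    {low : Finset (Fin n →₀ ℕ)} (hb : Blocks f ω c s W low) (i : ℕ) (U V : Idx p c C B ∅)
    (hU : ω.w U.vec < W) (hV : ω.w V.vec < W) (hUV : ω.w U.vec ≠ ω.w V.vec) :
    Abar Φ c B hadd f ω W i U V = 0 := by
  classical
  rw [Abar, if_pos ⟨hU, hV⟩]
  have h5 : lead f ω i U.vec V.vec = 0 := by
    unfold lead
    refine Finset.sum_eq_zero fun m _ => ?_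
    rw [if_neg]
    intro h6
    exact hUV (hb.tight _ (mem_low_of hb hU) _ (mem_low_of hb hV) _ h6).1
  rw [h5, map_zero, map_zero]

/-- the indices of weight `j` -/
noncomputable def blkEquiv {s W : ℕ} {low : Finset (Fin n →₀ ℕ)} (hb : Blocks f ω c s W low)
    (hlow : ∀ U ∈ low, ∀ i, U i ≤ B) {j : ℕ} (hj : j < W) :
    {U : Idx p c C B ∅ // ω.w U.vec = j} ≃ low.filter fun U => ω.w U = j :=
  Equiv.ofBijective (fun U => ⟨U.1.vec, Finset.mem_filter.2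
    ⟨mem_low_of hb (by rw [U.2]; exact hj), U.2⟩⟩) (by
    constructor
    · intro U V h
      exact Subtype.ext (Idx.vec_inj (congrArg Subtype.val h))
    · rintro ⟨V, hV⟩
      obtain ⟨hV1, hV2⟩ := Finset.mem_filter.1 hV
      obtain ⟨h1, h2, _⟩ := (hb.mem_low V).1 hV1
      obtain ⟨U, hU⟩ := exists_idx (p := p) (c := c) (C := C) (B := B) (Z := ∅) (hlow V hV1)
        (fun i => ⟨by simpa using (h1 i).1, (h1 i).2⟩) h2
      exact ⟨⟨U, by rw [hU]; exact hV2⟩, Subtype.ext hU⟩)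

theorem mprod_blk (hadd : ∀ x y, Φ.v (Φ.T x + Φ.T y - Φ.T (x + y)) < 1) {s W : ℕ}
    {low : Finset (Fin n →₀ ℕ)} (hb : Blocks f ω c s W low)
    (hlow : ∀ U ∈ low, ∀ i, U i ≤ B) {j : ℕ} (hj : j < W) :
    mprod (fun i => (fun U V => Abar Φ c B hadd f ω W i U V :
        Matrix {U : Idx p c C B ∅ // ω.w U.vec = j} {U : Idx p c C B ∅ // ω.w U.vec = j}
          (IsLocalRing.ResidueField Φ.O))) s =
      ((mprod (leadMat f ω low j) s).map ((red Φ hadd).comp (algebraMap k κ))).submatrix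
        (blkEquiv hb hlow hj) (blkEquiv hb hlow hj) := by
  rw [← mprod_map, ← mprod_submatrix]
  congr 1
  funext i
  ext U V
  rw [Abar, if_pos ⟨by rw [U.2]; exact hj, by rw [V.2]; exact hj⟩]
  rfl

end

end Pool.Agent.Helper9.WS
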