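import Pool.Agent.Helper9.WS.Core3
import Pool.Agent.Helper34.WS.Count

/-!
# Wild sums: the slopes (project WS)
-/

set_option linter.unusedSectionVars false

open MvPolynomial Finset

namespace Pool.Agent.Helper9.WS

section

open scoped Polynomial

variable {p : ℕ} [Fact p.Prime] {κ L : Type} [Field κ] [CharP κ p] [Field L] [CharZero L]
  (Φ : Frame p κ L) {n : ℕ} {k : Type} [Field k] [Algebra k κ]
  {C : (Fin n →₀ ℕ) → Prop} {f : MvPolynomial (Fin n) k} {ω : Weight p f.support C}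
  {c : Fin n → ℕ} {B M : ℕ} {γ ϖ : L}

theorem core_slopes (hadd : ∀ x y, Φ.v (Φ.T x + Φ.T y - Φ.T (x + y)) < 1) {s W : ℕ} (hs : 0 < s)
    {low : Finset (Fin n →₀ ℕ)} (hb : Blocks f ω c s W low) (hM : p ≤ M)
    (hγ : Φ.v γ < 1) (hγ0 : γ ≠ 0) (hϖ0 : ϖ ≠ 0) (hϖ : ϖ ^ (ω.l * (p - 1)) = γ)
    (hϖ1 : Φ.v ϖ < 1) (hlow : ∀ U ∈ low, ∀ i, U i ≤ B) {j : ℕ} (hj : j < W)
    {D N : ℕ} (hN : s * (D + low.card) ≤ N) (β : Fin D → L) (H : PowerSeries L)
    (hH0 : PowerSeries.coeff 0 H = 1) (hH : ∀ i, 0 < i → i ≤ N →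
      Φ.v (PowerSeries.coeff i H) < Φ.v ϖ ^ ((p - 1) * j * i))
    (hP : ((∏ i, (1 - Polynomial.C (β i) * Polynomial.X ^ s) : L[X]) : PowerSeries L) =
      ((cyc s (scA Φ f ω c B M γ ϖ ∅ 0)).charpolyRev : PowerSeries L) * H) :
    (univ.filter fun i => Φ.v ϖ ^ ((p - 1) * j * s) < Φ.v (β i)).card =
      (low.filter fun U => ω.w U < j).card ∧
    (univ.filter fun i => Φ.v (β i) = Φ.v ϖ ^ ((p - 1) * j * s)).card =
      (low.filter fun U => ω.w U = j).card ∧
    ∀ i i', Φ.v (β i) = Φ.v ϖ ^ ((p - 1) * j * s) → β i = β i' → i = i' := by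
  classical
  have hp : 1 < p := (Fact.out : p.Prime).one_lt
  have hϖ' : Φ.v ϖ ^ (ω.l * (p - 1)) = Φ.v γ := by rw [← map_pow, hϖ]
  set π : Φ.O := ⟨ϖ, (Φ.O.valuation_le_one_iff _).1 hϖ1.le⟩ with hπ
  have hπ0 : π ≠ 0 := fun h => hϖ0 (congrArg Subtype.val h)
  have hπr : IsLocalRing.residue Φ.O π = 0 := (residue_eq_zero_iff' Φ).2 hϖ1
  set Bm := Bmat Φ c B M (f := f) hγ.le hϖ0 hϖ' s with hBm
  set wJ : Fin s × Idx p c C B ∅ → ℕ := fun x => (p - 1) * ω.w x.2.vec with hwJ
  set φ : k →+* IsLocalRing.ResidueField Φ.O := (red Φ hadd).comp (algebraMap k κ) with hφ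
  have hlt : ∀ x : Fin s × Idx p c C B ∅, wJ x < (p - 1) * j → ω.w x.2.vec < j := fun x hx =>
    Nat.lt_of_mul_lt_mul_left hx
  have heq : ∀ x : Fin s × Idx p c C B ∅, wJ x = (p - 1) * j → ω.w x.2.vec = j := fun x hx =>
    Nat.eq_of_mul_eq_mul_left (by omega) hx
  -- the residues
  have hres : ∀ x y : Fin s × Idx p c C B ∅, ω.w x.2.vec < W → ω.w y.2.vec < W →
      IsLocalRing.residue Φ.O (Bm x y) = cyc s (Abar Φ c B hadd f ω W) x y := fun x y hx hy =>
    residue_Bmat Φ hadd hb hM hγ hγ0 hϖ0 hϖ hϖ' hx hy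
  have hlowB : lowBlock wJ ((p - 1) * j) (Bm.map (IsLocalRing.residue Φ.O)) =
      lowBlock wJ ((p - 1) * j) (cyc s (Abar Φ c B hadd f ω W)) := by
    ext x y
    exact hres x y ((hlt _ x.2).trans hj) ((hlt _ y.2).trans hj)
  have hmidB : midBlock wJ ((p - 1) * j) (Bm.map (IsLocalRing.residue Φ.O)) =
      midBlock wJ ((p - 1) * j) (cyc s (Abar Φ c B hadd f ω W)) := by
    ext x y
    exact hres x y ((heq _ x.2).trans_lt hj) ((heq _ y.2).trans_lt hj)
  -- the blocks
  have hdet : ∀ i < W, (mprod (fun l => (fun U V => Abar Φ c B hadd f ω W l U V :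
        Matrix {U : Idx p c C B ∅ // ω.w U.vec = i} {U : Idx p c C B ∅ // ω.w U.vec = i}
          (IsLocalRing.ResidueField Φ.O))) s).det ≠ 0 := by
    intro i hi
    rw [mprod_blk Φ hadd hb hlow hi, Matrix.det_submatrix_equiv_self, ← RingHom.mapMatrix_apply,
      ← RingHom.map_det]
    exact (map_ne_zero _).2 (hb.det i)
  have hmid := cyc_mid (fun U : Idx p c C B ∅ => ω.w U.vec) (Abar Φ c B hadd f ω W) hs
    (show 0 < p - 1 by omega) j
  rw [mprod_blk Φ hadd hb hlow hj, charpolyRev_submatrix, charpolyRev_map] at hmid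
  obtain ⟨hsep, hdeg⟩ := sep_rev (hb.det j) (hb.sep j)
  have hdeg' : (((mprod (leadMat f ω low j) s).charpolyRev).map φ).natDegree =
      (low.filter fun U => ω.w U = j).card := by
    rw [Polynomial.natDegree_map_eq_of_injective φ.injective, hdeg, Fintype.card_coe]
  -- the number of the indices of lower weight
  have hcard : (Pool.Agent.Helper9.WS.low wJ ((p - 1) * j)).card =
      s * (low.filter fun U => ω.w U < j).card := by
    have h1 : Pool.Agent.Helper9.WS.low wJ ((p - 1) * j) =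
        (univ : Finset (Fin s)) ×ˢ (univ.filter fun U : Idx p c C B ∅ => ω.w U.vec < j) := by
      ext x
      simp only [Pool.Agent.Helper9.WS.low, hwJ, Finset.mem_filter, Finset.mem_univ, true_and,
        Finset.mem_product]
      exact Nat.mul_lt_mul_left (by omega)
    rw [h1, Finset.card_product, Finset.card_univ, Fintype.card_fin]
    congr 1
    refine Finset.card_bij (fun U _ => U.vec) ?_ ?_ ?_
    · intro U hU
      have hU' : ω.w U.vec < j := (Finset.mem_filter.1 hU).2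
      exact Finset.mem_filter.2 ⟨mem_low_of hb (hU'.trans hj), hU'⟩
    · intro U _ V _ h
      exact Idx.vec_inj h
    · intro V hV
      obtain ⟨hV1, hV2⟩ := Finset.mem_filter.1 hV
      obtain ⟨h1, h2, _⟩ := (hb.mem_low V).1 hV1
      obtain ⟨U, hU⟩ := exists_idx (p := p) (c := c) (C := C) (B := B) (Z := ∅) (hlow V hV1)
        (fun i => ⟨by simpa using (h1 i).1, (h1 i).2⟩) h2
      exact ⟨U, Finset.mem_filter.2 ⟨Finset.mem_univ _, by rw [hU]; exact hV2⟩, hU⟩
  have hcc : (low.filter fun U => ω.w U < j).card + (low.filter fun U => ω.w U = j).card ≤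
      low.card := by
    rw [← Finset.card_union_of_disjoint]
    · exact Finset.card_le_card (Finset.union_subset (Finset.filter_subset _ _)
        (Finset.filter_subset _ _))
    · rw [Finset.disjoint_filter]
      intro U _ h h'
      omega
  have hmain := slopes Φ.O π hπ0 hπr wJ Bm ((p - 1) * j) (by
      intro x y hx hy
      have hx' := heq x hx
      have hy' := hlt y hy
      rw [hres x y (by omega) (by omega)]
      unfold cyc
      split_ifs
      · exact Abar_zero Φ hadd hb _ _ _ (by omega) (by omega) (by omega)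
      · rfl) (by
      rw [hlowB]
      exact cyc_low (fun U : Idx p c C B ∅ => ω.w U.vec) (Abar Φ c B hadd f ω W) hs
        (show 0 < p - 1 by omega) (fun i U V hU hV hUV => Abar_zero Φ hadd hb i U V hU hV hUV)
        hdet hj) hs (g := ((mprod (leadMat f ω low j) s).charpolyRev).map φ) (by
      rw [hmidB]
      exact hmid) (hsep.map) (D := D) (N := N) β
      (le_trans (Nat.mul_le_mul_left _ (Nat.le_add_right _ _)) hN) (by
      rw [hcard, hdeg', ← mul_add]
      exact le_trans (Nat.mul_le_mul_left _ (by omega)) hN) H hH0 hH (by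
      rw [hP]
      congr 3
      ext x y
      simp only [hBm, Bmat, hπ, hwJ]
      rw [mul_div_cancel₀ _ (pow_ne_zero _ hϖ0)])
  obtain ⟨h1, h2, h3⟩ := hmain
  refine ⟨?_, ?_, h3⟩
  · rw [hcard] at h1
    exact Nat.eq_of_mul_eq_mul_left hs h1
  · rw [hdeg'] at h2
    exact h2

end

end Pool.Agent.Helper9.WS
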