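import Pool.Agent.Helper9.WS.Core4
import Pool.Agent.Helper12.WS.Cyc
import Pool.Agent.Helper44.WS.Gamma

/-!
# Wild sums: the eigenvalues of small slope are simple (project WS)
-/

set_option linter.unusedSectionVars false

open MvPolynomial Finset

namespace Pool.Agent.Helper9.WS

private theorem v_nat9 {L : Type} [Field L] (O : ValuationSubring L) (n : ℕ) :
    O.valuation (n : L) ≤ 1 := by
  rw [ValuationSubring.valuation_le_one_iff]
  exact natCast_mem O n

private theorem v_nat_ge9 {L : Type} [Field L] (O : ValuationSubring L) {p : ℕ} (hp : p.Prime)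
    (hpv : O.valuation (p : L) < 1) {K : ℕ} (hK : 0 < K) :
    O.valuation (p : L) ^ K ≤ O.valuation (K : L) := by
  obtain ⟨a, u, hu, hKe⟩ := Nat.exists_eq_pow_mul_and_not_dvd hK.ne' p hp.ne_one
  have hu1 : O.valuation (u : L) = 1 := by
    refine le_antisymm (v_nat9 O u) ?_
    by_contra hlt
    rw [not_le] at hlt
    have hcop : IsCoprime (u : ℤ) (p : ℤ) := by
      rw [Nat.isCoprime_iff_coprime]
      exact ((Nat.Prime.coprime_iff_not_dvd hp).2 hu).symm
    obtain ⟨x, y, hxy⟩ := hcop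
    have h1 : (x : L) * (u : L) + (y : L) * (p : L) = 1 := by
      exact_mod_cast congrArg (Int.cast : ℤ → L) hxy
    have hz : ∀ x : ℤ, O.valuation (x : L) ≤ 1 := fun x => by
      rw [ValuationSubring.valuation_le_one_iff]
      exact intCast_mem O x
    have h2 : O.valuation ((x : L) * (u : L) + (y : L) * (p : L)) < 1 := by
      refine (Valuation.map_add _ _ _).trans_lt (max_lt ?_ ?_)
      · rw [map_mul]
        exact (mul_le_of_le_one_left' (hz x)).trans_lt hlt
      · rw [map_mul]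
        exact (mul_le_of_le_one_left' (hz y)).trans_lt hpv
    rw [h1, map_one] at h2
    exact lt_irrefl _ h2
  have ha : a ≤ K := by
    have h1 : p ^ a ≤ K := Nat.le_of_dvd hK ⟨u, hKe⟩
    exact (Nat.lt_pow_self hp.one_lt).le.trans h1
  have h2 : O.valuation (K : L) = O.valuation (p : L) ^ a := by
    rw [hKe, Nat.cast_mul, Nat.cast_pow, map_mul, map_pow, hu1, mul_one]
  rw [h2]
  exact pow_le_pow_right_of_le_one' hpv.le ha

section

open scoped Polynomial

variable {p : ℕ} [Fact p.Prime] {κ L : Type} [Field κ] [CharP κ p] [Field L] [CharZero L]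
  (Φ : Frame p κ L) {n : ℕ} {k : Type} [Field k] [Fintype k] [Algebra k κ]
  {C : (Fin n →₀ ℕ) → Prop} {f : MvPolynomial (Fin n) k} {ω : Weight p f.support C}
  {c : Fin n → ℕ} {B M : ℕ} {γ ϖ : L}

theorem trace_scA {s : ℕ} (hs : 0 < s) (hk : Fintype.card k = p ^ s) (hϖ0 : ϖ ≠ 0)
    (Z : Finset (Fin n)) (a : ℕ) {r : ℕ} (hr : 0 < r) :
    ((cyc s (scA Φ f ω c B M γ ϖ Z a)) ^ r).trace = if s ∣ r then (s : L) * (((p : L) ^ a) ^ r *
      (mprod (fun i => trans p c C B Z (fac Φ M γ f i)) r).trace) else 0 := by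
  rw [trace_cyc hs _ (fun i => by unfold scA; rw [fac_periodic Φ hk]) hr]
  unfold scA
  rw [mprod_conj _ (fun U => pow_ne_zero _ hϖ0), trace_conj _ (fun U => pow_ne_zero _ hϖ0)]

theorem exists_H [IsAlgClosed L] {s W : ℕ} (hs : 0 < s) (hk : Fintype.card k = p ^ s)
    {low : Finset (Fin n →₀ ℕ)} (hb : Blocks f ω c s W low) (hc : ∀ j, c j < p - 1)
    (hγ : Φ.v γ < 1) (hγp : Φ.v γ ^ (p - 1) = Φ.v (p : L)) (hϖ0 : ϖ ≠ 0)
    (hϖ : ϖ ^ (ω.l * (p - 1)) = γ) (hϖ1 : Φ.v ϖ < 1)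
    (hB : ∀ i, ∀ N ∈ (fac Φ M γ f i).support, ∀ j, N j ≤ B)
    {ψ : AddChar (ZMod p) L} (hψ : ev p M γ = ψ 1)
    {j : ℕ} (hj : j < W) {D N : ℕ} (β : Fin D → L)
    (hMN : (p - 1) * W * N + (p - 1) * N.factorial < M)
    (hβ : ∀ m, 0 < m → ∃ (K : Type) (_ : Field K) (_ : Fintype K) (_ : Algebra k K)
      (_ : Algebra (ZMod p) K) (ι : K →ₐ[k] κ), Fintype.card K = Fintype.card k ^ m ∧
        ∑ i, β i ^ m = (-1) ^ n * wildSum Φ ψ c K ι f) :
    ∃ H : PowerSeries L, PowerSeries.coeff 0 H = 1 ∧ (∀ i, 0 < i → i ≤ N →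
      Φ.v (PowerSeries.coeff i H) < Φ.v ϖ ^ ((p - 1) * j * i)) ∧
      ((∏ i, (1 - Polynomial.C (β i) * Polynomial.X ^ s) : L[X]) : PowerSeries L) =
        ((cyc s (scA Φ f ω c B M γ ϖ ∅ 0)).charpolyRev : PowerSeries L) * H := by
  classical
  have hpp : p.Prime := Fact.out
  have hp : 1 < p := hpp.one_lt
  have hϖv : Φ.v ϖ ≠ 0 := (Φ.v.ne_zero_iff).2 hϖ0
  have hϖp : 0 < Φ.v ϖ := zero_lt_iff.2 hϖv
  have hϖ' : Φ.v ϖ ^ (ω.l * (p - 1)) = Φ.v γ := by rw [← map_pow, hϖ]
  have hvp : Φ.v (p : L) = Φ.v ϖ ^ (ω.l * (p - 1) * (p - 1)) := by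
    rw [pow_mul, hϖ', hγp]
  have hγle : Φ.v γ ≤ Φ.v ϖ := by
    rw [← hϖ']
    exact pow_le_of_le_one zero_le hϖ1.le (Nat.mul_ne_zero ω.l_pos.ne' (by omega))
  have hγp' : Φ.v (p : L) ≤ Φ.v γ := by
    rw [← hγp]
    exact pow_le_of_le_one zero_le hγ.le (by omega)
  let E : ∀ x : {x : Finset (Fin n) × Fin (n + 1) // x ≠ (∅, 0)},
      Matrix (Fin s × Idx p c C B x.1.1) (Fin s × Idx p c C B x.1.1) L := fun x =>
    cyc s (scA Φ f ω c B M γ ϖ x.1.1 (x.1.1.card + (x.1.2 : ℕ)))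
  obtain ⟨H, h1, h2, h3⟩ := exists_quotient Φ.O (ρ := ϖ ^ ((p - 1) * j)) (by
      rw [map_pow]
      exact pow_le_one' hϖ1.le _) (pow_ne_zero _ hϖ0) (cyc s (scA Φ f ω c B M γ ϖ ∅ 0)) (N := N)
      hs β (I := {x : Finset (Fin n) × Fin (n + 1) // x ≠ (∅, 0)})
      (fun x => (-1) ^ (x.1.1.card + (x.1.2 : ℕ)) * ((n - x.1.1.card).choose x.1.2 : ℤ))
      (fun x => Fin s × Idx p c C B x.1.1) E (by
    intro x u w
    change Φ.v (E x u w) < Φ.v (ϖ ^ ((p - 1) * j))
    have hpos : 0 < Φ.v (ϖ ^ ((p - 1) * j)) := by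
      rw [map_pow]
      exact pow_pos hϖp _
    simp only [E, cyc]
    split_ifs
    · refine (v_scA_le Φ hγ.le hϖ0 hϖ' _ _ _ _).trans_lt ?_
      rw [hvp, map_pow, ← pow_mul, ← pow_add]
      refine pow_lt_pow_right_of_lt_one₀ hϖp hϖ1 ?_
      have hbd := hb.bound u.2.vec x.1.1 (fun i => u.2.prop.1 i) u.2.prop.2
      have hmax : max 1 x.1.1.card ≤ x.1.1.card + (x.1.2 : ℕ) := by
        refine max_le ?_ (Nat.le_add_right _ _)
        by_contra hcon
        have hc0 : x.1.1.card = 0 := by omega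
        have hc1 : (x.1.2 : ℕ) = 0 := by omega
        exact x.2 (Prod.ext (Finset.card_eq_zero.1 hc0) (Fin.ext hc1))
      have h4 : W ≤ ω.w u.2.vec + (x.1.1.card + (x.1.2 : ℕ)) * ((p - 1) * ω.l) :=
        hbd.trans (Nat.add_le_add_left (Nat.mul_le_mul_right _ hmax) _)
      have h5 : (p - 1) * j < (p - 1) * W := Nat.mul_lt_mul_of_pos_left hj (by omega)
      have h6 := Nat.mul_le_mul_left (p - 1) h4
      calc (p - 1) * j < (p - 1) * W := h5
        _ ≤ _ := h6
        _ = _ := by ring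
    · rw [map_zero]
      exact hpos) (by
    intro r hr hrN
    have hbound : Φ.v γ ^ M < Φ.v ((N.factorial : ℕ) : L) * Φ.v (ϖ ^ ((p - 1) * j)) ^ N := by
      have h4 : Φ.v γ ^ ((p - 1) * N.factorial) ≤ Φ.v ((N.factorial : ℕ) : L) := by
        rw [pow_mul, hγp]
        exact v_nat_ge9 Φ.O hpp Φ.p_lt (Nat.factorial_pos N)
      have h5 : Φ.v γ ^ ((p - 1) * W * N) ≤ Φ.v (ϖ ^ ((p - 1) * j)) ^ N := by
        rw [map_pow, ← pow_mul]
        refine (pow_le_pow_left' hγle _).trans ?_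
        exact pow_le_pow_right_of_le_one' hϖ1.le
          (Nat.mul_le_mul_right _ (Nat.mul_le_mul_left _ hj.le))
      have h6 : Φ.v γ ^ M < Φ.v γ ^ ((p - 1) * N.factorial + (p - 1) * W * N) := by
        refine pow_lt_pow_right_of_lt_one₀ ?_ hγ (by omega)
        rw [← hϖ']
        exact pow_pos hϖp _
      refine h6.trans_le ?_
      rw [pow_add]
      exact mul_le_mul' h4 h5
    refine lt_of_le_of_lt ?_ hbound
    by_cases hsr : s ∣ r
    · obtain ⟨m, rfl⟩ := hsr
      have hm : 0 < m := by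
        rcases m.eq_zero_or_pos with h | h
        · rw [h, mul_zero] at hr
          exact absurd hr (lt_irrefl _)
        · exact h
      obtain ⟨K, _, _, _, _, ι, hK, hsum⟩ := hβ m hm
      have hK' : Fintype.card K = p ^ (s * m) := by rw [hK, hk, pow_mul]
      have htr := wildSum_trace Φ hγ.le hγp' hψ hc ι hK' f ω hB
      rw [if_pos (Dvd.intro _ rfl), Nat.mul_div_cancel_left _ hs, hsum,
        trace_scA Φ hs hk hϖ0 ∅ 0 hr, if_pos (Dvd.intro _ rfl)]
      have hE : ∀ x : {x : Finset (Fin n) × Fin (n + 1) // x ≠ (∅, 0)},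
          (E x ^ (s * m)).trace = (s : L) * (((p : L) ^ (x.1.1.card + (x.1.2 : ℕ))) ^ (s * m) *
            (mprod (fun i => trans p c C B x.1.1 (fac Φ M γ f i)) (s * m)).trace) := by
        intro x
        have := trace_scA Φ (f := f) (ω := ω) (c := c) (B := B) (M := M) (γ := γ) hs hk hϖ0 x.1.1
          (x.1.1.card + (x.1.2 : ℕ)) hr
        rw [if_pos (Dvd.intro _ rfl)] at this
        exact this
      simp only [hE]
      rw [Fintype.sum_eq_add_sum_subtype_ne _ ((∅, 0) : Finset (Fin n) × Fin (n + 1))] at htr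
      have e1 : (s : L) * ((-1) ^ n * wildSum Φ ψ c K ι f) -
          (s : L) * (((p : L) ^ 0) ^ (s * m) *
            (mprod (fun i => trans p c C B ∅ (fac Φ M γ f i)) (s * m)).trace) -
          ∑ x : {x : Finset (Fin n) × Fin (n + 1) // x ≠ (∅, 0)},
            ((((-1) ^ (x.1.1.card + (x.1.2 : ℕ)) * ((n - x.1.1.card).choose x.1.2 : ℤ) : ℤ)) : L) *
            ((s : L) * (((p : L) ^ (x.1.1.card + (x.1.2 : ℕ))) ^ (s * m) *
            (mprod (fun i => trans p c C B x.1.1 (fac Φ M γ f i)) (s * m)).trace)) =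
          (s : L) * ((-1) ^ n * wildSum Φ ψ c K ι f -
            ((-1) ^ ((∅ : Finset (Fin n)).card + ((0 : Fin (n + 1)) : ℕ)) *
              ((n - (∅ : Finset (Fin n)).card).choose ((0 : Fin (n + 1)) : ℕ) : L) *
              ((p : L) ^ (s * m)) ^ ((∅ : Finset (Fin n)).card + ((0 : Fin (n + 1)) : ℕ)) *
              (mprod (fun i => trans p c C B ∅ (fac Φ M γ f i)) (s * m)).trace +
            ∑ x : {x : Finset (Fin n) × Fin (n + 1) // x ≠ (∅, 0)},
              (-1) ^ (x.1.1.card + (x.1.2 : ℕ)) * ((n - x.1.1.card).choose x.1.2 : L) *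
              ((p : L) ^ (s * m)) ^ (x.1.1.card + (x.1.2 : ℕ)) *
              (mprod (fun i => trans p c C B x.1.1 (fac Φ M γ f i)) (s * m)).trace)) := by
        rw [mul_sub, mul_add, sub_sub, Finset.mul_sum]
        congr 2
        · simp
        · refine Finset.sum_congr rfl fun x _ => ?_
          push_cast
          rw [← pow_mul, ← pow_mul, mul_comm (s * m)]
          ring
      change Φ.v _ ≤ _
      rw [e1, map_mul]
      exact (mul_le_of_le_one_left' (v_nat9 Φ.O s)).trans htr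
    · rw [if_neg hsr, trace_scA Φ hs hk hϖ0 ∅ 0 hr, if_neg hsr, sub_zero, zero_sub,
        Valuation.map_neg, Finset.sum_eq_zero, map_zero]
      · exact zero_le
      · intro x _
        have := trace_scA Φ (f := f) (ω := ω) (c := c) (B := B) (M := M) (γ := γ) hs hk hϖ0 x.1.1
          (x.1.1.card + (x.1.2 : ℕ)) hr
        rw [if_neg hsr] at this
        change _ * (E x ^ r).trace = 0
        rw [this, mul_zero])
  refine ⟨H, h1, fun i hi hiN => ?_, h3⟩
  have := h2 i hi hiN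
  rw [map_pow, ← pow_mul] at this
  exact this

end

end Pool.Agent.Helper9.WS
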