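import Pool.Agent.Helper9.WS.Core
import Pool.Agent.Helper9.WS.Defs5
import Pool.Agent.Helper67.WS.Tight
import Pool.Agent.Helper95.WS.Quot2
import Pool.Agent.Helper83.WS.SlopesMid

/-!
# Wild sums: comparison in the middle slope (project WS)
-/

set_option linter.unusedSectionVars false

open MvPolynomial Finset

namespace Pool.Agent.Helper9.WS

private theorem v_nat10 {L : Type} [Field L] (O : ValuationSubring L) (n : ℕ) :
    O.valuation (n : L) ≤ 1 := by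
  rw [ValuationSubring.valuation_le_one_iff]
  exact natCast_mem O n

private theorem v_nat_ge10 {L : Type} [Field L] (O : ValuationSubring L) {p : ℕ} (hp : p.Prime)
    (hpv : O.valuation (p : L) < 1) {K : ℕ} (hK : 0 < K) :
    O.valuation (p : L) ^ K ≤ O.valuation (K : L) := by
  obtain ⟨a, u, hu, hKe⟩ := Nat.exists_eq_pow_mul_and_not_dvd hK.ne' p hp.ne_one
  have hu1 : O.valuation (u : L) = 1 := by
    refine le_antisymm (v_nat10 O u) ?_
    by_contra hlt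
    rw [not_le] at hlt
    have hcop : IsCoprime (u : ℤ) (p : ℤ) := by
      rw [Nat.isCoprime_iff_coprime]
      exact ((Nat.Prime.coprime_iff_not_dvd hp).2 hu).symm
    obtain ⟨x, y, hxy⟩ := hcop
    have h1 : (x : L) * (u : L) + (y : L) * (p : L) = 1 := by
      exact_mod_cast congrArg (Int.cast : ℤ → L) hxy
    have hz : ∀ x : ℤ, O.valuation (x : L) ≤ 1 := fun x => by
      rw [ValuationSubring.valuation_le_one_iff]
      exact intCast_mem O x
    have h2 : O.valuation ((x : L) * (u : L) + (y : L) * (p : L)) < 1 := by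
      refine (Valuation.map_add _ _ _).trans_lt (max_lt ?_ ?_)
      · rw [map_mul]
        exact (mul_le_of_le_one_left' (hz x)).trans_lt hlt
      · rw [map_mul]
        exact (mul_le_of_le_one_left' (hz y)).trans_lt hpv
    rw [h1, map_one] at h2
    exact lt_irrefl _ h2
  have ha : a ≤ K := by
    have h1 : p ^ a ≤ K := Nat.le_of_dvd hK ⟨u, hKe⟩
    exact (Nat.lt_pow_self hp.one_lt).le.trans h1
  have h2 : O.valuation (K : L) = O.valuation (p : L) ^ a := by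
    rw [hKe, Nat.cast_mul, Nat.cast_pow, map_mul, map_pow, hu1, mul_one]
  rw [h2]
  exact pow_le_pow_right_of_le_one' hpv.le ha

theorem charpolyRev_mid_congr {K J J' : Type} [CommRing K] [Fintype J] [DecidableEq J] [Fintype J']
    [DecidableEq J'] (w : J → ℕ) (w' : J' → ℕ) (θ : ℕ) (X : Matrix J J K) (X' : Matrix J' J' K)
    (e : {u // w u = θ} ≃ {u' // w' u' = θ})
    (h : ∀ u v : {u // w u = θ}, X u v = X' (e u) (e v)) :
    (midBlock w θ X).charpolyRev = (midBlock w' θ X').charpolyRev := by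
  rw [← charpolyRev_submatrix e (midBlock w' θ X')]
  congr 1
  ext u v
  exact h u v

section

open scoped Polynomial

variable {p : ℕ} [Fact p.Prime] {κ L : Type} [Field κ] [CharP κ p] [Field L] [CharZero L]
  (Φ : Frame p κ L) {n : ℕ} {k : Type} [Field k] [Fintype k] [Algebra k κ]
  {C : (Fin n →₀ ℕ) → Prop} {f : MvPolynomial (Fin n) k} {ω : Weight p f.support C}
  {c : Fin n → ℕ} {B M : ℕ} {γ ϖ : L}

/-- the index set of the error terms -/
abbrev ErrIdx (n : ℕ) : Type := {x : Finset (Fin n) × Fin (n + 1) // x ≠ (∅, 0)}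

/-- the multiplicities of the error terms -/
def errMul (n : ℕ) (x : ErrIdx n) : ℤ :=
  (-1) ^ (x.1.1.card + (x.1.2 : ℕ)) * ((n - x.1.1.card).choose x.1.2 : ℤ)

theorem gamma_bound {W j N : ℕ} (hγ : Φ.v γ < 1) (hγp : Φ.v γ ^ (p - 1) = Φ.v (p : L))
    (hϖ0 : ϖ ≠ 0) (hl : 0 < ω.l)
    (hϖ : ϖ ^ (ω.l * (p - 1)) = γ) (hϖ1 : Φ.v ϖ < 1) (hj : j ≤ W)
    (hMN : (p - 1) * W * N + (p - 1) * N.factorial < M) :
    Φ.v γ ^ M < Φ.v ((N.factorial : ℕ) : L) * Φ.v (ϖ ^ ((p - 1) * j)) ^ N := by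
  have hpp : p.Prime := Fact.out
  have hp : 1 < p := hpp.one_lt
  have hϖp : 0 < Φ.v ϖ := zero_lt_iff.2 ((Φ.v.ne_zero_iff).2 hϖ0)
  have hϖ' : Φ.v ϖ ^ (ω.l * (p - 1)) = Φ.v γ := by rw [← map_pow, hϖ]
  have hγle : Φ.v γ ≤ Φ.v ϖ := by
    rw [← hϖ']
    exact pow_le_of_le_one zero_le hϖ1.le (Nat.mul_ne_zero ω.l_pos.ne' (by omega))
  have h4 : Φ.v γ ^ ((p - 1) * N.factorial) ≤ Φ.v ((N.factorial : ℕ) : L) := by
    rw [pow_mul, hγp]
    exact v_nat_ge10 Φ.O hpp Φ.p_lt (Nat.factorial_pos N)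
  have h5 : Φ.v γ ^ ((p - 1) * W * N) ≤ Φ.v (ϖ ^ ((p - 1) * j)) ^ N := by
    rw [map_pow, ← pow_mul]
    refine (pow_le_pow_left' hγle _).trans ?_
    exact pow_le_pow_right_of_le_one' hϖ1.le
      (Nat.mul_le_mul_right _ (Nat.mul_le_mul_left _ hj))
  have h6 : Φ.v γ ^ M < Φ.v γ ^ ((p - 1) * N.factorial + (p - 1) * W * N) := by
    refine pow_lt_pow_right_of_lt_one₀ ?_ hγ (by omega)
    rw [← hϖ']
    exact pow_pos hϖp _
  refine h6.trans_le ?_
  rw [pow_add]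
  exact mul_le_mul' h4 h5

theorem trace_bound {s : ℕ} (hs : 0 < s) (hk : Fintype.card k = p ^ s) (hc : ∀ j, c j < p - 1)
    (hγ : Φ.v γ < 1) (hγp : Φ.v γ ^ (p - 1) = Φ.v (p : L)) (hϖ0 : ϖ ≠ 0)
    (hB : ∀ i, ∀ N ∈ (fac Φ M γ f i).support, ∀ j, N j ≤ B)
    {ψ : AddChar (ZMod p) L} (hψ : ev p M γ = ψ 1) {D : ℕ} (β : Fin D → L)
    (hβ : ∀ m, 0 < m → ∃ (K : Type) (_ : Field K) (_ : Fintype K) (_ : Algebra k K)
      (_ : Algebra (ZMod p) K) (ι : K →ₐ[k] κ), Fintype.card K = Fintype.card k ^ m ∧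
        ∑ i, β i ^ m = (-1) ^ n * wildSum Φ ψ c K ι f) {r : ℕ} (hr : 0 < r) :
    Φ.v ((if s ∣ r then (s : L) * ∑ i, β i ^ (r / s) else 0) -
      ((cyc s (scA Φ f ω c B M γ ϖ ∅ 0)) ^ r).trace - ∑ x : ErrIdx n, ((errMul n x : ℤ) : L) *
        ((cyc s (scA Φ f ω c B M γ ϖ x.1.1 (x.1.1.card + (x.1.2 : ℕ)))) ^ r).trace) ≤
      Φ.v γ ^ M := by
  classical
  have hpp : p.Prime := Fact.out
  have hp : 1 < p := hpp.one_lt
  have hγp' : Φ.v (p : L) ≤ Φ.v γ := by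
    rw [← hγp]
    exact pow_le_of_le_one zero_le hγ.le (by omega)
  by_cases hsr : s ∣ r
  · obtain ⟨m, rfl⟩ := hsr
    have hm : 0 < m := by
      rcases m.eq_zero_or_pos with h | h
      · rw [h, mul_zero] at hr
        exact absurd hr (lt_irrefl _)
      · exact h
    obtain ⟨K, _, _, _, _, ι, hK, hsum⟩ := hβ m hm
    have hK' : Fintype.card K = p ^ (s * m) := by rw [hK, hk, pow_mul]
    have htr := wildSum_trace Φ hγ.le hγp' hψ hc ι hK' f ω hB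
    rw [if_pos (Dvd.intro _ rfl), Nat.mul_div_cancel_left _ hs, hsum,
      trace_scA Φ hs hk hϖ0 ∅ 0 hr, if_pos (Dvd.intro _ rfl)]
    have hE : ∀ x : ErrIdx n,
        ((cyc s (scA Φ f ω c B M γ ϖ x.1.1 (x.1.1.card + (x.1.2 : ℕ)))) ^ (s * m)).trace =
          (s : L) * (((p : L) ^ (x.1.1.card + (x.1.2 : ℕ))) ^ (s * m) *
          (mprod (fun i => trans p c C B x.1.1 (fac Φ M γ f i)) (s * m)).trace) := by
      intro x
      have := trace_scA Φ (f := f) (ω := ω) (c := c) (B := B) (M := M) (γ := γ) hs hk hϖ0 x.1.1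
        (x.1.1.card + (x.1.2 : ℕ)) hr
      rw [if_pos (Dvd.intro _ rfl)] at this
      exact this
    simp only [hE]
    rw [Fintype.sum_eq_add_sum_subtype_ne _ ((∅, 0) : Finset (Fin n) × Fin (n + 1))] at htr
    have e1 : (s : L) * ((-1) ^ n * wildSum Φ ψ c K ι f) -
        (s : L) * (((p : L) ^ 0) ^ (s * m) *
          (mprod (fun i => trans p c C B ∅ (fac Φ M γ f i)) (s * m)).trace) -
        ∑ x : ErrIdx n, ((errMul n x : ℤ) : L) *
          ((s : L) * (((p : L) ^ (x.1.1.card + (x.1.2 : ℕ))) ^ (s * m) *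
          (mprod (fun i => trans p c C B x.1.1 (fac Φ M γ f i)) (s * m)).trace)) =
        (s : L) * ((-1) ^ n * wildSum Φ ψ c K ι f -
          ((-1) ^ ((∅ : Finset (Fin n)).card + ((0 : Fin (n + 1)) : ℕ)) *
            ((n - (∅ : Finset (Fin n)).card).choose ((0 : Fin (n + 1)) : ℕ) : L) *
            ((p : L) ^ (s * m)) ^ ((∅ : Finset (Fin n)).card + ((0 : Fin (n + 1)) : ℕ)) *
            (mprod (fun i => trans p c C B ∅ (fac Φ M γ f i)) (s * m)).trace +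
          ∑ x : ErrIdx n,
            (-1) ^ (x.1.1.card + (x.1.2 : ℕ)) * ((n - x.1.1.card).choose x.1.2 : L) *
            ((p : L) ^ (s * m)) ^ (x.1.1.card + (x.1.2 : ℕ)) *
            (mprod (fun i => trans p c C B x.1.1 (fac Φ M γ f i)) (s * m)).trace)) := by
      rw [mul_sub, mul_add, sub_sub, Finset.mul_sum]
      congr 2
      · simp
      · refine Finset.sum_congr rfl fun x _ => ?_
        unfold errMul
        push_cast
        rw [← pow_mul, ← pow_mul, mul_comm (s * m)]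
        ring
    rw [e1, map_mul]
    exact (mul_le_of_le_one_left' (v_nat10 Φ.O s)).trans htr
  · rw [if_neg hsr, trace_scA Φ hs hk hϖ0 ∅ 0 hr, if_neg hsr, sub_zero, zero_sub,
      Valuation.map_neg, Finset.sum_eq_zero, map_zero]
    · exact zero_le
    · intro x _
      have := trace_scA Φ (f := f) (ω := ω) (c := c) (B := B) (M := M) (γ := γ) hs hk hϖ0 x.1.1
        (x.1.1.card + (x.1.2 : ℕ)) hr
      rw [if_neg hsr] at this
      rw [this, mul_zero]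

/-! ### the matrices of the error terms -/

/-- the scaled weight -/
noncomputable def wZ (ω : Weight p f.support C) {Z : Finset (Fin n)} (a : ℕ) (U : Idx p c C B Z) : ℕ :=
  (p - 1) * (ω.w U.vec + a * ((p - 1) * ω.l))

theorem v_scA_le' (hγ : Φ.v γ ≤ 1) (hγp : Φ.v γ ^ (p - 1) = Φ.v (p : L)) (hϖ0 : ϖ ≠ 0)
    (hϖ : ϖ ^ (ω.l * (p - 1)) = γ) {Z : Finset (Fin n)} (a i : ℕ) (U V : Idx p c C B Z) :
    Φ.v (scA Φ f ω c B M γ ϖ Z a i U V) ≤ Φ.v ϖ ^ wZ ω a U := by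
  have hϖ' : Φ.v ϖ ^ (ω.l * (p - 1)) = Φ.v γ := by rw [← map_pow, hϖ]
  refine (v_scA_le Φ hγ hϖ0 hϖ' a i U V).trans ?_
  rw [← hγp, ← hϖ', ← pow_mul, ← pow_mul, ← pow_add]
  apply le_of_eq
  congr 1
  unfold wZ
  ring

/-- the integral matrix -/
noncomputable def BmatZ (f : MvPolynomial (Fin n) k) (ω : Weight p f.support C) (c : Fin n → ℕ)
    (B M : ℕ) (hγ : Φ.v γ ≤ 1) (hγp : Φ.v γ ^ (p - 1) = Φ.v (p : L)) (hϖ0 : ϖ ≠ 0)
    (hϖ : ϖ ^ (ω.l * (p - 1)) = γ) (Z : Finset (Fin n)) (a s : ℕ) :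
    Matrix (Fin s × Idx p c C B Z) (Fin s × Idx p c C B Z) Φ.O := fun x y =>
  ⟨cyc s (scA Φ f ω c B M γ ϖ Z a) x y / ϖ ^ wZ ω a x.2, by
    rw [← Φ.O.valuation_le_one_iff, map_div₀, map_pow]
    have hϖv : Φ.v ϖ ≠ 0 := (Φ.v.ne_zero_iff).2 hϖ0
    rw [div_le_one₀ (zero_lt_iff.2 (pow_ne_zero _ hϖv))]
    unfold cyc
    split_ifs
    · exact v_scA_le' Φ hγ hγp hϖ0 hϖ a _ _ _
    · rw [map_zero]
      exact zero_le⟩

theorem scA_tight (hγ : Φ.v γ < 1) (hγ0 : γ ≠ 0) (hγp : Φ.v γ ^ (p - 1) = Φ.v (p : L))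
    (hϖ0 : ϖ ≠ 0) (hϖ : ϖ ^ (ω.l * (p - 1)) = γ) (a i : ℕ) {Z : Finset (Fin n)}
    (U V : Idx p c C B Z) :
    Φ.v (scA Φ f ω c B M γ ϖ Z a i U V / ϖ ^ wZ ω a U -
      (p : L) ^ a / ϖ ^ ((p - 1) * (a * ((p - 1) * ω.l))) *
        tightSum Φ M f ω i U.vec V.vec) < 1 := by
  have hp : 1 < p := (Fact.out : p.Prime).one_lt
  have hϖv : Φ.v ϖ ≠ 0 := (Φ.v.ne_zero_iff).2 hϖ0
  have hϖ' : Φ.v ϖ ^ (ω.l * (p - 1)) = Φ.v γ := by rw [← map_pow, hϖ]
  have h2 : ω.w U.vec + (p - 1) * ω.w U.vec = p * ω.w U.vec := by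
    rw [add_comm, ← Nat.succ_mul]
    congr 1
    omega
  have e1 : scA Φ f ω c B M γ ϖ Z a i U V / ϖ ^ wZ ω a U =
      (p : L) ^ a / ϖ ^ ((p - 1) * (a * ((p - 1) * ω.l))) *
      (trans p c C B Z (fac Φ M γ f i) U V * ϖ ^ ω.w V.vec / ϖ ^ (p * ω.w U.vec)) := by
    simp only [scA, conj, wZ, mul_add, pow_add, ← h2]
    have : ϖ ^ ω.w U.vec ≠ 0 := pow_ne_zero _ hϖ0
    have : ϖ ^ ((p - 1) * ω.w U.vec) ≠ 0 := pow_ne_zero _ hϖ0
    have : ϖ ^ ((p - 1) * (a * ((p - 1) * ω.l))) ≠ 0 := pow_ne_zero _ hϖ0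
    field_simp
  have hu : Φ.v ((p : L) ^ a / ϖ ^ ((p - 1) * (a * ((p - 1) * ω.l)))) = 1 := by
    rw [map_div₀, map_pow, map_pow, ← hγp, ← hϖ', ← pow_mul, ← pow_mul]
    have : ω.l * (p - 1) * ((p - 1) * a) = (p - 1) * (a * ((p - 1) * ω.l)) := by ring
    rw [this]
    exact div_self (pow_ne_zero _ hϖv)
  rw [e1, ← mul_sub, map_mul, hu, one_mul]
  by_cases h : ∃ N : Fin n →₀ ℕ, (p - 1) • N + V.vec = p • U.vec
  · obtain ⟨N, hN⟩ := h
    rw [trans_eq _ U V hN]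
    have h3 := v_coeff_tight Φ f ω M hγ hγ0 hϖ i hN
    have h4 : (fac Φ M γ f i).coeff N * ϖ ^ ω.w V.vec / ϖ ^ (p * ω.w U.vec) -
        tightSum Φ M f ω i U.vec V.vec =
        ((fac Φ M γ f i).coeff N * ϖ ^ ω.w V.vec -
      ϖ ^ (p * ω.w U.vec) * tightSum Φ M f ω i U.vec V.vec) /
        ϖ ^ (p * ω.w U.vec) := by
      rw [sub_div, mul_div_cancel_left₀ _ (pow_ne_zero _ hϖ0)]
    rw [h4, map_div₀, map_pow, div_lt_one₀ (zero_lt_iff.2 (pow_ne_zero _ hϖv))]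
    exact h3
  · push Not at h
    rw [trans_eq_zero _ U V h]
    have h5 : tightSum Φ M f ω i U.vec V.vec = 0 := by
      classical
      unfold tightSum
      refine Finset.sum_eq_zero fun m _ => ?_
      rw [if_neg]
      rintro ⟨h6, _⟩
      exact h _ h6
    rw [h5]
    simp

end

end Pool.Agent.Helper9.WS
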