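import Pool.Agent.Helper9.WS.Core6

/-!
# Wild sums: the middle slope (project WS)
-/

set_option linter.unusedSectionVars false

open MvPolynomial Finset

namespace Pool.Agent.Helper9.WS

section

open scoped Polynomial

variable {p : ℕ} [Fact p.Prime] {κ L : Type} [Field κ] [CharP κ p] [Field L] [CharZero L]
  (Φ : Frame p κ L) {n : ℕ} {k : Type} [Field k] [Fintype k] [Algebra k κ]
  {C C' : (Fin n →₀ ℕ) → Prop} {f f' : MvPolynomial (Fin n) k} {ω : Weight p f.support C}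
  {ω' : Weight p f'.support C'} {c : Fin n → ℕ} {B M : ℕ} {γ ϖ : L}

/-- an index as an index for another cone -/
def Idx.cast' {Z : Finset (Fin n)} (U : Idx p c C B Z) (h : C' U.vec) : Idx p c C' B Z :=
  ⟨U.1, ⟨U.2.1, h⟩⟩

theorem Idx.cast'_vec {Z : Finset (Fin n)} (U : Idx p c C B Z) (h : C' U.vec) :
    (U.cast' h).vec = U.vec := rfl

theorem Idx.cls {Z : Finset (Fin n)} (U : Idx p c C B Z) : Cls p c Z U.vec := U.prop.1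

theorem wZ_eq_iff (hp : 1 < p) {Z : Finset (Fin n)} (a : ℕ) (U : Idx p c C B Z) {W : ℕ} :
    wZ ω a U = (p - 1) * W ↔ ω.w U.vec + a * ((p - 1) * ω.l) = W := by
  unfold wZ
  exact Nat.mul_right_inj (by omega)

/-- the indices of the middle weight agree -/
noncomputable def midEquiv {W : ℕ} (hcmp : Compare ω ω' c W) (hp : 1 < p) {Z : Finset (Fin n)}
    {a : ℕ} (ha : Z.card ≤ a) (s : ℕ) :
    {x : Fin s × Idx p c C B Z // wZ ω a x.2 = (p - 1) * W} ≃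
      {x : Fin s × Idx p c C' B Z // wZ ω' a x.2 = (p - 1) * W} where
  toFun x := ⟨(x.1.1, x.1.2.cast' ((hcmp.iff Z a _ ha x.1.2.cls).1
      ⟨x.1.2.prop.2, (wZ_eq_iff hp a x.1.2).1 x.2⟩).1), by
    rw [wZ_eq_iff hp, hcmp.l_eq]
    exact ((hcmp.iff Z a _ ha x.1.2.cls).1 ⟨x.1.2.prop.2, (wZ_eq_iff hp a x.1.2).1 x.2⟩).2⟩
  invFun x := ⟨(x.1.1, x.1.2.cast' ((hcmp.iff Z a _ ha x.1.2.cls).2
      ⟨x.1.2.prop.2, by
        have := (wZ_eq_iff hp a x.1.2).1 x.2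
        rwa [hcmp.l_eq] at this⟩).1), by
    rw [wZ_eq_iff hp]
    exact ((hcmp.iff Z a _ ha x.1.2.cls).2 ⟨x.1.2.prop.2, by
        have := (wZ_eq_iff hp a x.1.2).1 x.2
        rwa [hcmp.l_eq] at this⟩).2⟩
  left_inv _ := rfl
  right_inv _ := rfl

theorem residue_mid {W : ℕ} (hcmp : Compare ω ω' c W) (hγ : Φ.v γ < 1) (hγ0 : γ ≠ 0)
    (hγp : Φ.v γ ^ (p - 1) = Φ.v (p : L)) (hϖ0 : ϖ ≠ 0) (hϖ : ϖ ^ (ω.l * (p - 1)) = γ)
    (hϖ' : ϖ ^ (ω'.l * (p - 1)) = γ) (hM : 0 < M) {Z : Finset (Fin n)} {a : ℕ} (ha : Z.card ≤ a)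
    (hp : 1 < p) {s : ℕ} (x y : {x : Fin s × Idx p c C B Z // wZ ω a x.2 = (p - 1) * W}) :
    IsLocalRing.residue Φ.O (BmatZ Φ f ω c B M hγ.le hγp hϖ0 hϖ Z a s x.1 y.1) =
      IsLocalRing.residue Φ.O (BmatZ Φ f' ω' c B M hγ.le hγp hϖ0 hϖ' Z a s
        (midEquiv hcmp hp ha s x).1 (midEquiv hcmp hp ha s y).1) := by
  rw [residue_eq_iff]
  by_cases h : ((y.1.1 : ℕ) + 1) % s = (x.1.1 : ℕ)
  · have h1 : ((BmatZ Φ f ω c B M hγ.le hγp hϖ0 hϖ Z a s x.1 y.1 : Φ.O) : L) =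
        scA Φ f ω c B M γ ϖ Z a y.1.1 x.1.2 y.1.2 / ϖ ^ wZ ω a x.1.2 := by
      simp only [BmatZ, cyc, if_pos h]
    have h2 : ((BmatZ Φ f' ω' c B M hγ.le hγp hϖ0 hϖ' Z a s
        (midEquiv hcmp hp ha s x).1 (midEquiv hcmp hp ha s y).1 : Φ.O) : L) =
        scA Φ f' ω' c B M γ ϖ Z a y.1.1 (midEquiv hcmp hp ha s x).1.2
          (midEquiv hcmp hp ha s y).1.2 / ϖ ^ wZ ω' a (midEquiv hcmp hp ha s x).1.2 := by
      have h' : (((midEquiv hcmp hp ha s y).1.1 : ℕ) + 1) % s =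
        ((midEquiv hcmp hp ha s x).1.1 : ℕ) := h
      simp only [BmatZ, cyc, if_pos h']
      rfl
    rw [h1, h2]
    have e1 := scA_tight Φ (c := c) (B := B) (M := M) hγ hγ0 hγp hϖ0 hϖ a y.1.1 x.1.2 y.1.2
    have e2 := scA_tight Φ (c := c) (B := B) (M := M) hγ hγ0 hγp hϖ0 hϖ' a y.1.1
      (midEquiv hcmp hp ha s x).1.2 (midEquiv hcmp hp ha s y).1.2
    have e3 : tightSum Φ M f ω y.1.1 x.1.2.vec y.1.2.vec = tightSum Φ M f' ω' y.1.1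
        (midEquiv hcmp hp ha s x).1.2.vec (midEquiv hcmp hp ha s y).1.2.vec :=
      tightSum_compare Φ hcmp hM y.1.1 ha x.1.2.cls y.1.2.cls x.1.2.prop.2 y.1.2.prop.2
        ((wZ_eq_iff hp a x.1.2).1 x.2) ((wZ_eq_iff hp a y.1.2).1 y.2)
    rw [← e3, hcmp.l_eq] at e2
    have e4 := Valuation.map_sub_lt _ e1 e2
    rw [sub_sub_sub_cancel_right] at e4
    exact e4
  · have h1 : ((BmatZ Φ f ω c B M hγ.le hγp hϖ0 hϖ Z a s x.1 y.1 : Φ.O) : L) = 0 := by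
      simp only [BmatZ, cyc, if_neg h, zero_div]
    have h2 : ((BmatZ Φ f' ω' c B M hγ.le hγp hϖ0 hϖ' Z a s
        (midEquiv hcmp hp ha s x).1 (midEquiv hcmp hp ha s y).1 : Φ.O) : L) = 0 := by
      have h' : ¬ (((midEquiv hcmp hp ha s y).1.1 : ℕ) + 1) % s =
        ((midEquiv hcmp hp ha s x).1.1 : ℕ) := h
      simp only [BmatZ, cyc, if_neg h', zero_div]
    rw [h1, h2, sub_zero, map_zero]
    exact zero_lt_one

theorem charpolyRev_mid {W : ℕ} (hcmp : Compare ω ω' c W) (hγ : Φ.v γ < 1) (hγ0 : γ ≠ 0)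
    (hγp : Φ.v γ ^ (p - 1) = Φ.v (p : L)) (hϖ0 : ϖ ≠ 0) (hϖ : ϖ ^ (ω.l * (p - 1)) = γ)
    (hϖ' : ϖ ^ (ω'.l * (p - 1)) = γ) (hM : 0 < M) {Z : Finset (Fin n)} {a : ℕ} (ha : Z.card ≤ a)
    (hp : 1 < p) (s : ℕ) :
    (midBlock (fun x : Fin s × Idx p c C B Z => wZ ω a x.2) ((p - 1) * W)
      ((BmatZ Φ f ω c B M hγ.le hγp hϖ0 hϖ Z a s).map (IsLocalRing.residue Φ.O))).charpolyRev =
    (midBlock (fun x : Fin s × Idx p c C' B Z => wZ ω' a x.2) ((p - 1) * W)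
      ((BmatZ Φ f' ω' c B M hγ.le hγp hϖ0 hϖ' Z a s).map
        (IsLocalRing.residue Φ.O))).charpolyRev :=
  charpolyRev_mid_congr _ _ _ _ _ (midEquiv hcmp hp ha s) fun x y =>
    residue_mid Φ hcmp hγ hγ0 hγp hϖ0 hϖ hϖ' hM ha hp x y

theorem BmatZ_charpolyRev (hγ : Φ.v γ ≤ 1) (hγp : Φ.v γ ^ (p - 1) = Φ.v (p : L)) (hϖ0 : ϖ ≠ 0)
    (hϖ : ϖ ^ (ω.l * (p - 1)) = γ) (Z : Finset (Fin n)) (a s : ℕ) :
    Matrix.charpolyRev (fun (x y : Fin s × Idx p c C B Z) => ϖ ^ wZ ω a x.2 *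
      (BmatZ Φ f ω c B M hγ hγp hϖ0 hϖ Z a s x y : L)) =
      (cyc s (scA Φ f ω c B M γ ϖ Z a)).charpolyRev := by
  congr 1
  ext x y
  simp only [BmatZ]
  rw [mul_div_cancel₀ _ (pow_ne_zero _ hϖ0)]

end

end Pool.Agent.Helper9.WS
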