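import Pool.Agent.Helper9.WS.Defs

/-!
# Wild exponential sums: leading blocks (project WS)
-/

open MvPolynomial Finset

namespace Pool.Agent.Helper9.WS

section

variable {p n : ℕ} {k : Type} [Field k] {C : (Fin n →₀ ℕ) → Prop}

open scoped Classical in
/-- the leading coefficient of the `i`-th transfer matrix of `f` at `U`, `V` -/
noncomputable def lead (f : MvPolynomial (Fin n) k) (ω : Weight p f.support C) (i : ℕ)
    (U V : Fin n →₀ ℕ) : k :=
  ∑ m : f.support → Fin p,
    if IsTight ω U V (fun e => if h : e ∈ f.support then (m ⟨e, h⟩ : ℕ) else 0) then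
      ∏ e : f.support, f.coeff (e : Fin n →₀ ℕ) ^ (p ^ i * (m e : ℕ)) *
        (((m e : ℕ).factorial : ℕ) : k)⁻¹
    else 0

/-- the leading block of weight `j` of the `i`-th transfer matrix -/
noncomputable def leadMat (f : MvPolynomial (Fin n) k) (ω : Weight p f.support C)
    (low : Finset (Fin n →₀ ℕ)) (j i : ℕ) :
    Matrix (low.filter fun U => ω.w U = j) (low.filter fun U => ω.w U = j) k :=
  fun U V => lead f ω i U V

/-- below the weight `W` the leading part of the transfer matrices is the sum of the blocks of the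
different weights, and the `s`-fold product of the blocks of each weight is invertible with pairwise
different eigenvalues -/
structure Blocks (f : MvPolynomial (Fin n) k) (ω : Weight p f.support C) (c : Fin n → ℕ)
    (s W : ℕ) (low : Finset (Fin n →₀ ℕ)) : Prop where
  mem_low : ∀ U, U ∈ low ↔ (∀ j, U j ≠ 0 ∧ (p - 1) ∣ U j + c j) ∧ C U ∧ ω.w U < W
  tight : ∀ U ∈ low, ∀ V ∈ low, ∀ m, IsTight ω U V m →
    ω.w U = ω.w V ∧ ∀ e ∈ f.support, m e < p
  bound : ∀ U (Z : Finset (Fin n)), (∀ j, (j ∈ Z ↔ U j = 0) ∧ (p - 1) ∣ U j + c j) → C U →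
    W ≤ ω.w U + max 1 Z.card * ((p - 1) * ω.l)
  det : ∀ j, (mprod (leadMat f ω low j) s).det ≠ 0
  sep : ∀ j, (mprod (leadMat f ω low j) s).charpoly.Separable

end

section

variable {k : Type} [Field k]

/-- the pairs `u`, `0 < u₀ < a`, `0 < u₁ < b`, with `b u₀ + a u₁ = j` -/
def planeIdx (a b j : ℕ) : Finset (ℕ × ℕ) :=
  (range a ×ˢ range b).filter fun u => 0 < u.1 ∧ 0 < u.2 ∧ b * u.1 + a * u.2 = j

/-- the Hasse-Witt block of weight `j`: the coefficients of `f ^ ((p - 1) j / (a b))` at `p u - v`,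
with the `i`-th power of Frobenius -/
noncomputable def hasse (p a b : ℕ) (f : MvPolynomial (Fin 2) k) (j i : ℕ) :
    Matrix (planeIdx a b j) (planeIdx a b j) k := fun u v =>
  (f ^ ((p - 1) * j / (a * b))).coeff (Finsupp.single 0 (p * u.1.1 - v.1.1) +
    Finsupp.single 1 (p * u.1.2 - v.1.2)) ^ p ^ i

/-- `f` lies below the line through `(a, 0)` and `(0, b)`, `p` is congruent to 1 modulo `a` and `b`,
and for each weight `j ≤ a b` (slope at most 1) the `s`-fold product of the Hasse-Witt blocks is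
invertible and has pairwise different eigenvalues -/
structure PlaneBlocks (p a b s : ℕ) (f : MvPolynomial (Fin 2) k) : Prop where
  a_pos : 0 < a
  b_pos : 0 < b
  dvd_a : a ∣ p - 1
  dvd_b : b ∣ p - 1
  supp : ∀ e ∈ f.support, b * e 0 + a * e 1 ≤ a * b
  det : ∀ j ≤ a * b, (mprod (hasse p a b f j) s).det ≠ 0
  sep : ∀ j ≤ a * b, (mprod (hasse p a b f j) s).charpoly.Separable

end

end Pool.Agent.Helper9.WS
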