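import Pool.Agent.Helper9.WS.Defs2

/-!
# Wild covers: the parts (project WS)
-/

open MvPolynomial Finset

namespace Pool.Agent.Helper9.WS

/-- the parts of the second cohomology of the wild covers -/
inductive Part (k : Type) [Field k] : Type
  /-- the part of `w ^ p - w = f (x, y)` belonging to a character -/
  | plane (f : MvPolynomial (Fin 2) k)
  /-- `y ^ 2 = x (x - 1) (x - t)` over `w ^ p - w = g (t)` -/
  | legendre (g : Polynomial k)
  /-- `y ^ 2 = x (x ^ 2 + u x + t)` over `w ^ p - w = g (t)` -/
  | torsion (u : k) (g : Polynomial k)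
  /-- `y ^ 2 = x ^ 3 + A (t) x + B (t)` over `w ^ p - w = g (t)` -/
  | weierstrass (A B g : Polynomial k)

namespace Part

variable {k : Type} [Field k]

/-- the part belonging to the inverse character -/
noncomputable def neg : Part k → Part k
  | plane f => plane (-f)
  | legendre g => legendre (-g)
  | torsion u g => torsion u (-g)
  | weierstrass A B g => weierstrass A B (-g)

/-- the exponential sum of the plane -/
noncomputable def planeSum {p : ℕ} {L : Type} [Field L] (ψ : AddChar (ZMod p) L) (K : Type)
    [Field K] [Fintype K] [Algebra k K] [Algebra (ZMod p) K] (f : MvPolynomial (Fin 2) k) : L :=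
  ∑ x : K, ∑ y : K, ψ (Algebra.trace (ZMod p) K (aeval ![x, y] f))

open scoped Classical in
/-- the exponential sum of the elliptic surface `y ^ 2 = F (x, t)` -/
noncomputable def ellSum {p : ℕ} {L : Type} [Field L] (ψ : AddChar (ZMod p) L) (K : Type)
    [Field K] [Fintype K] [Algebra k K] [Algebra (ZMod p) K] (F : Polynomial (Polynomial k))
    (g : Polynomial k) : L :=
  ∑ x : K, ∑ t : K, ((quadraticChar K (ellVal F x t) : ℤ) : L) *
    ψ (Algebra.trace (ZMod p) K (Polynomial.aeval t g))

/-- the sum over the points with values in `K` -/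
noncomputable def sum {p : ℕ} {L : Type} [Field L] (ψ : AddChar (ZMod p) L) (K : Type) [Field K]
    [Fintype K] [Algebra k K] [Algebra (ZMod p) K] : Part k → L
  | plane f => planeSum ψ K f
  | legendre g => ellSum ψ K (legF k) g
  | torsion u g => ellSum ψ K (torF u) g
  | weierstrass A B g => ellSum ψ K (weiF A B) g

/-- the number of zeros of the discriminant plus the number of common zeros of `A` and `B` -/
noncomputable def bad (A B : Polynomial k) : ℕ :=
  {t : AlgebraicClosure k | 4 * Polynomial.aeval t A ^ 3 + 27 * Polynomial.aeval t B ^ 2 = 0}.ncard +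
    {t : AlgebraicClosure k | Polynomial.aeval t A = 0 ∧ Polynomial.aeval t B = 0}.ncard

/-- the bound for the dimension -/
noncomputable def RankLE (r : ℕ) : Part k → Prop
  | plane _ => True
  | legendre g => r ≤ 2 * g.natDegree
  | torsion _ g => r ≤ 2 * g.natDegree
  | weierstrass A B g => r + 2 ≤ 2 * g.natDegree + bad A B

/-- the parts for which the theorem is proved; `k` has `p ^ s` elements -/
def Good (p s : ℕ) : Part k → Prop
  | plane f => ∃ a b, PlaneType p a b f ∨ PlaneBlocks p a b s f
  | legendre g => 0 < g.natDegree ∧ 2 * g.natDegree ∣ p - 1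
  | torsion _ g => 0 < g.natDegree ∧ 4 * g.natDegree ∣ p - 1
  | weierstrass A B g => 0 < g.natDegree ∧ 6 * g.natDegree ∣ p - 1 ∧
      B.natDegree ∈ ({1, 2, 4, 5} : Set ℕ) ∧ 3 * A.natDegree < 2 * B.natDegree ∧ bad A B ≤ 3

end Part

end Pool.Agent.Helper9.WS
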