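import Pool.Agent.Helper9.WS.Defs2

/-!
# Wild covers: Newton polygons, cubic families and the parts (project WS)
-/

open MvPolynomial Finset

namespace Pool.Agent.Helper9.WS

section

variable {k : Type} [Field k]

/-- the weight of `u`: the largest of the values of the linear forms in `S` -/
def polyWt (S : Finset (ℕ × ℕ)) (u : ℕ × ℕ) : ℕ := S.sup fun σ => σ.1 * u.1 + σ.2 * u.2

/-- the `u` with positive entries and weight `j`, `j ≤ l` -/
def polyIdx (S : Finset (ℕ × ℕ)) (l j : ℕ) : Finset (ℕ × ℕ) :=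
  (Icc 1 l ×ˢ Icc 1 l).filter fun u => polyWt S u = j

/-- the Hasse-Witt block of weight `j`: the coefficients of `f ^ ((p - 1) j / l)` at `p u - v`,
with the `i`-th power of Frobenius -/
noncomputable def polyHasse (p l : ℕ) (S : Finset (ℕ × ℕ)) (f : MvPolynomial (Fin 2) k)
    (j i : ℕ) : Matrix (polyIdx S l j) (polyIdx S l j) k := fun u v =>
  (f ^ ((p - 1) * j / l)).coeff (Finsupp.single 0 (p * u.1.1 - v.1.1) +
    Finsupp.single 1 (p * u.1.2 - v.1.2)) ^ p ^ i

/-- All exponents of `f` have weight at most `l`, `p` is congruent to 1 modulo `l`, and for each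
`j ≤ l` (slope `j / l`) the `s`-fold product of the Hasse-Witt blocks is invertible and has pairwise
different eigenvalues. -/
structure PolyBlocks (p s l : ℕ) (S : Finset (ℕ × ℕ)) (f : MvPolynomial (Fin 2) k) : Prop where
  l_pos : 0 < l
  dvd : l ∣ p - 1
  pos0 : ∃ σ ∈ S, 0 < σ.1
  pos1 : ∃ σ ∈ S, 0 < σ.2
  supp : ∀ e ∈ f.support, polyWt S (e 0, e 1) ≤ l
  det : ∀ j ≤ l, (mprod (polyHasse p l S f j) s).det ≠ 0
  sep : ∀ j ≤ l, (mprod (polyHasse p l S f j) s).charpoly.Separable

/-- `f = α x ^ a + β y ^ b + ` terms of lower weight, `a` and `b` divide `p - 1`, and for each common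
prime divisor `r` of `a` and `b` the quotient `α / β` is not an `r`-th power and the `r`-part of
`p - 1` divides `s` -/
structure FermatType (p s a b : ℕ) (f : MvPolynomial (Fin 2) k) : Prop where
  a_pos : 0 < a
  b_pos : 0 < b
  dvd_a : a ∣ p - 1
  dvd_b : b ∣ p - 1
  coeff_a : f.coeff (Finsupp.single 0 a) ≠ 0
  coeff_b : f.coeff (Finsupp.single 1 b) ≠ 0
  supp : ∀ e ∈ f.support, e = Finsupp.single 0 a ∨ e = Finsupp.single 1 b ∨
    b * e 0 + a * e 1 < a * b
  power : ∀ r : ℕ, r.Prime → r ∣ a → r ∣ b → ∀ x : k,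
    f.coeff (Finsupp.single 0 a) ≠ x ^ r * f.coeff (Finsupp.single 1 b)
  val : ∀ r j : ℕ, r.Prime → r ∣ a → r ∣ b → r ^ j ∣ p - 1 → r ^ j ∣ s

/-- `f` is a cubic polynomial whose leading form is not a product of linear forms over `k`, and 3
divides `p - 1` -/
structure CubicForm (p : ℕ) (f : MvPolynomial (Fin 2) k) : Prop where
  dvd : 3 ∣ p - 1
  deg : ∀ e ∈ f.support, e 0 + e 1 ≤ 3
  form : ∃ c : Fin 4 → k, (∀ i : Fin 4, c i = f.coeff (Finsupp.single 0 (i : ℕ) +
    Finsupp.single 1 (3 - (i : ℕ)))) ∧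
    ∀ x y z w u v : k, ¬ (c 3 = x * z * u ∧ c 2 = x * z * v + x * w * u + y * z * u ∧
      c 1 = x * w * v + y * z * v + y * w * u ∧ c 0 = y * w * v)

/-- `f` is of one of the three types after an automorphism of `k[x, y]` and the addition of a
polynomial `h ^ p - h` -/
def PlaneGood (p s : ℕ) (f : MvPolynomial (Fin 2) k) : Prop :=
  ∃ (φ : MvPolynomial (Fin 2) k ≃ₐ[k] MvPolynomial (Fin 2) k) (h : MvPolynomial (Fin 2) k),
    (∃ a b, FermatType p s a b (φ f + h ^ p - h)) ∨ CubicForm p (φ f + h ^ p - h) ∨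
      ∃ l S, PolyBlocks p s l S (φ f + h ^ p - h)

/-- `x³ + a₂(t) x² + a₄(t) x + a₆(t)` -/
noncomputable def cubF (a₂ a₄ a₆ : Polynomial k) : Polynomial (Polynomial k) :=
  Polynomial.X ^ 3 + Polynomial.C a₂ * Polynomial.X ^ 2 + Polynomial.C a₄ * Polynomial.X +
    Polynomial.C a₆

/-- the coefficient of `a` at `m / e` -/
def ratCoeff (a : Polynomial k) (m e : ℕ) : k := if e ∣ m then a.coeff (m / e) else 0

/-- the leading form of the cubic, if `x` has the weight `m / e` -/
noncomputable def leadCubic (m e : ℕ) (a₂ a₄ a₆ : Polynomial k) : Polynomial k :=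
  Polynomial.X ^ 3 + Polynomial.C (ratCoeff a₂ m e) * Polynomial.X ^ 2 +
    Polynomial.C (ratCoeff a₄ (2 * m) e) * Polynomial.X + Polynomial.C (ratCoeff a₆ (3 * m) e)

/-- `x` has the weight `m / e < 2`, `p` is congruent to 1 modulo `2 e deg g`, and the leading form
of the cubic is ordinary -/
structure CubicType (p m e : ℕ) (a₂ a₄ a₆ g : Polynomial k) : Prop where
  m_pos : 0 < m
  m_lt : m < 2 * e
  deg₂ : e * a₂.natDegree ≤ m
  deg₄ : e * a₄.natDegree ≤ 2 * m
  deg₆ : e * a₆.natDegree ≤ 3 * m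
  g_pos : 0 < g.natDegree
  dvd : 2 * e * g.natDegree ∣ p - 1
  ordinary : (leadCubic m e a₂ a₄ a₆ ^ ((p - 1) / 2)).coeff (p - 1) ≠ 0

theorem CubicType.m_le {p m e : ℕ} {a₂ a₄ a₆ g : Polynomial k} (h : CubicType p m e a₂ a₄ a₆ g) :
    m ≤ 2 * e := h.m_lt.le

open scoped Classical in
/-- There are pairwise different roots of unity `c i` of order prime to `p` such that the sum of
the quadratic character over the values of the cubic is `q ^ m ∑ c i ^ m` over the field with
`q ^ m` elements, for all `m`. (For a rational elliptic surface with additive reduction at infinity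
the `c i` are the eigenvalues of Frobenius on the Mordell-Weil group over the algebraic closure.) -/
def SimpleMW (p : ℕ) (L : Type) [Field L] [Fintype k] (a₂ a₄ a₆ : Polynomial k) : Prop :=
  ∃ (r N : ℕ) (c : Fin r → L), ¬ p ∣ N ∧ (∀ i, c i ^ N = 1) ∧ Function.Injective c ∧
    ∀ (m : ℕ), 0 < m → ∀ (K : Type) [Field K] [Fintype K] [Algebra k K],
      Fintype.card K = Fintype.card k ^ m →
        ∑ x : K, ∑ t : K, ((quadraticChar K (x ^ 3 + Polynomial.aeval t a₂ * x ^ 2 +
          Polynomial.aeval t a₄ * x + Polynomial.aeval t a₆) : ℤ) : L) =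
        (Fintype.card K : L) * ∑ i, c i ^ m

end

/-- the parts of the second cohomology of the wild covers -/
inductive Part (k : Type) [Field k] : Type
  /-- the part of `w ^ p - w = f (x, y)` belonging to a character -/
  | plane (f : MvPolynomial (Fin 2) k)
  /-- `y² = x³ + a₂(t) x² + a₄(t) x + a₆(t)` over `w ^ p - w = g (t)` -/
  | elliptic (a₂ a₄ a₆ g : Polynomial k)

namespace Part

variable {k : Type} [Field k]

/-- the part belonging to the inverse character -/
noncomputable def neg : Part k → Part k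
  | plane f => plane (-f)
  | elliptic a₂ a₄ a₆ g => elliptic a₂ a₄ a₆ (-g)

open scoped Classical in
/-- the exponential sum over the points with values in `K` -/
noncomputable def sum {p : ℕ} {L : Type} [Field L] (ψ : AddChar (ZMod p) L) (K : Type) [Field K]
    [Fintype K] [Algebra k K] [Algebra (ZMod p) K] : Part k → L
  | plane f => ∑ x : K, ∑ y : K, ψ (Algebra.trace (ZMod p) K (aeval ![x, y] f))
  | elliptic a₂ a₄ a₆ g => ∑ x : K, ∑ t : K,
      ((quadraticChar K (x ^ 3 + Polynomial.aeval t a₂ * x ^ 2 + Polynomial.aeval t a₄ * x +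
        Polynomial.aeval t a₆) : ℤ) : L) *
        ψ (Algebra.trace (ZMod p) K (Polynomial.aeval t g))

/-- the parts for which the theorem is proved; `k` has `p ^ s` elements -/
def Good (p s : ℕ) (L : Type) [Field L] [Fintype k] : Part k → Prop
  | plane f => PlaneGood p s f
  | elliptic a₂ a₄ a₆ g => (∃ m e, CubicType p m e a₂ a₄ a₆ g) ∧ SimpleMW p L a₂ a₄ a₆

end Part

end Pool.Agent.Helper9.WS
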